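import Pool.Agent.H54.GC.Sign

/-!
# Systems of graphs of continuous functions which agree pairwise at exactly one point
-/

set_option autoImplicit false

namespace Pool.Agent.H54.GC

/-- a finite set of reals, listed increasingly by the numbers `0, …, M`, continued beyond `M` -/
theorem exists_grid (S : Finset ℝ) (hS : S.Nonempty) :
    ∃ (M : ℕ) (X : ℕ → ℝ), StrictMono X ∧ ∀ y ∈ S, ∃ k ≤ M, X k = y := by
  classical
  obtain ⟨M, hM⟩ : ∃ M, S.card = M + 1 :=
    ⟨S.card - 1, by have := Finset.card_pos.2 hS; omega⟩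
  let e := S.orderEmbOfFin hM
  let X : ℕ → ℝ := fun k => if h : k < M + 1 then e ⟨k, h⟩ else e (Fin.last M) + ((k - M : ℕ) : ℝ)
  refine ⟨M, X, ?_, ?_⟩
  · refine strictMono_nat_of_lt_succ fun k => ?_
    show (if h : k < M + 1 then e ⟨k, h⟩ else e (Fin.last M) + ((k - M : ℕ) : ℝ)) <
      (if h : k + 1 < M + 1 then e ⟨k + 1, h⟩ else e (Fin.last M) + ((k + 1 - M : ℕ) : ℝ))
    by_cases h1 : k + 1 < M + 1
    · rw [dif_pos h1, dif_pos (by omega : k < M + 1)]
      exact e.strictMono (by simp [Fin.lt_def])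
    · rw [dif_neg h1]
      by_cases h2 : k < M + 1
      · rw [dif_pos h2]
        have h3 : k = M := by omega
        subst h3
        have h4 : (⟨k, h2⟩ : Fin (k + 1)) = Fin.last k := rfl
        rw [h4, show k + 1 - k = 1 by omega]
        simp
      · rw [dif_neg h2]
        have h3 : k + 1 - M = (k - M) + 1 := by omega
        rw [h3]
        push_cast
        linarith
  · intro y hy
    have h1 : y ∈ Set.range e := by
      rw [Finset.range_orderEmbOfFin]
      exact hy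
    obtain ⟨k, rfl⟩ := h1
    refine ⟨k.val, by omega, ?_⟩
    show (if h : k.val < M + 1 then e ⟨k.val, h⟩ else _) = _
    rw [dif_pos k.isLt]

theorem exists_zero_between {D : ℝ → ℝ} (hD : Continuous D) {a b : ℝ} (hab : a < b)
    (h : D a * D b < 0) : ∃ y, a < y ∧ y < b ∧ D y = 0 := by
  rcases mul_neg_iff.1 h with ⟨h1, h2⟩ | ⟨h1, h2⟩
  · have h3 := intermediate_value_Ioo' hab.le hD.continuousOn
    obtain ⟨y, hy, h4⟩ := h3 (show (0 : ℝ) ∈ Set.Ioo (D b) (D a) from ⟨h2, h1⟩)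
    exact ⟨y, hy.1, hy.2, h4⟩
  · have h3 := intermediate_value_Ioo hab.le hD.continuousOn
    obtain ⟨y, hy, h4⟩ := h3 (show (0 : ℝ) ∈ Set.Ioo (D a) (D b) from ⟨h1, h2⟩)
    exact ⟨y, hy.1, hy.2, h4⟩

theorem system {n : ℕ} (F : Fin n → ℝ → ℝ) (hF : ∀ i, Continuous (F i)) (x : Fin n → Fin n → ℝ)
    (hx : ∀ i j, x i j = x j i) (h1 : ∀ i j, i ≠ j → F i (x i j) = F j (x i j))
    (h2 : ∀ i j, i ≠ j → ∀ y, F i y = F j y → y = x i j)
    (h3 : ∀ i j k, i ≠ j → j ≠ k → i ≠ k → x i j ≠ x j k) :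
    ∃ χ : Fin n → Fin n → Fin n → SignType, IsGCTO χ ∧
      (∀ i j k, χ i j k = χ j k i) ∧
      (∀ f g h, f ≠ g → g ≠ h → f ≠ h → x h f < x f g → x f g < x g h →
        F h (x f g) < F f (x f g) → χ f g h = -1) ∧
      (∀ f g h, f ≠ g → g ≠ h → f ≠ h → x h f < x f g → x f g < x g h →
        F f (x f g) < F h (x f g) → χ f g h = 1) := by
  classical
  obtain ⟨M, X, hX, hXS⟩ := exists_grid
    (insert 0 (Finset.univ.image fun p : Fin n × Fin n => x p.1 p.2)) ⟨0, by simp⟩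
  have hk : ∀ i j, ∃ k ≤ M, X k = x i j := fun i j =>
    hXS (x i j) (by
      rw [Finset.mem_insert, Finset.mem_image]
      exact Or.inr ⟨(i, j), Finset.mem_univ _, rfl⟩)
  have hidx : ∃ idx : ℝ → ℕ, ∀ i j, idx (x i j) ≤ M ∧ X (idx (x i j)) = x i j := by
    refine ⟨fun y => if h : ∃ k ≤ M, X k = y then h.choose else 0, fun i j => ?_⟩
    simp only [dif_pos (hk i j)]
    exact (hk i j).choose_spec
  obtain ⟨idx, hidx⟩ := hidx
  set κ : Fin n → Fin n → ℕ := fun i j => idx (x i j) with hκdef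
  have hκ : ∀ i j, κ i j = κ j i := fun i j => by rw [hκdef]; simp only; rw [hx i j]
  have hXκ : ∀ i j, X (κ i j) = x i j := fun i j => (hidx i j).2
  set Y : Fin n → ℕ → ℝ := fun i k => F i (X k) with hY
  have hone : ∀ i j, i ≠ j → OneZero M (fun k => Y i k - Y j k) (κ i j) := by
    intro i j hij
    refine ⟨(hidx i j).1, ?_, ?_, ?_⟩
    · show F i (X (κ i j)) - F j (X (κ i j)) = 0
      rw [hXκ, h1 i j hij, sub_self]
    · intro k _ hne h
      have h4 := h2 i j hij (X k) (sub_eq_zero.1 h)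
      rw [← hXκ i j] at h4
      exact hne (hX.injective h4)
    · intro k _
      by_contra hneg
      push Not at hneg
      have hc : Continuous fun y => F i y - F j y := (hF i).sub (hF j)
      obtain ⟨y, hy1, hy2, hy3⟩ := exists_zero_between hc (hX (Nat.lt_succ_self k)) hneg
      have h4 := h2 i j hij y (sub_eq_zero.1 hy3)
      rw [← hXκ i j] at h4
      rw [h4] at hy1 hy2
      have a1 := hX.lt_iff_lt.1 hy1
      have a2 := hX.lt_iff_lt.1 hy2
      omega
  have hdist : ∀ i j l, i ≠ j → j ≠ l → i ≠ l → κ i j ≠ κ j l := by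
    intro i j l hij hjl hil h
    refine h3 i j l hij hjl hil ?_
    rw [← hXκ i j, ← hXκ j l, h]
  have hchi : ∀ f g h : Fin n, f ≠ g → g ≠ h → f ≠ h →
      chiOf X Y κ f g h = SignType.sign (tri X (Y f) (Y g) (Y h) (κ f g) (κ g h) (κ h f)) := by
    intro f g h hfg hgh hfh
    unfold chiOf
    rw [if_neg]
    push Not
    exact ⟨hfg, hgh, hfh⟩
  refine ⟨chiOf X Y κ, chiOf_isGCTO X hX Y κ hκ hone hdist, ?_, ?_, ?_⟩
  · intro i j k
    by_cases hd : i = j ∨ j = k ∨ i = k
    · unfold chiOf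
      rw [if_pos hd, if_pos]
      tauto
    · push Not at hd
      rw [hchi i j k hd.1 hd.2.1 hd.2.2, hchi j k i hd.2.1 hd.2.2.symm hd.1.symm, tri_rot]
  · intro f g h hfg hgh hfh ha hb hc
    rw [hchi f g h hfg hgh hfh]
    have a1 : κ h f < κ f g := hX.lt_iff_lt.1 (by rw [hXκ, hXκ]; exact ha)
    have a2 : κ f g < κ g h := hX.lt_iff_lt.1 (by rw [hXκ, hXκ]; exact hb)
    have a3 := tri_neg hX (hone f g hfg) (hone g h hgh) (hone h f hfh.symm) a1 a2
    have a4 : 0 < Y f (κ f g) - Y h (κ f g) := by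
      show 0 < F f (X (κ f g)) - F h (X (κ f g))
      rw [hXκ]
      linarith
    exact sign_neg (neg_of_mul_neg_left a3 a4.le)
  · intro f g h hfg hgh hfh ha hb hc
    rw [hchi f g h hfg hgh hfh]
    have a1 : κ h f < κ f g := hX.lt_iff_lt.1 (by rw [hXκ, hXκ]; exact ha)
    have a2 : κ f g < κ g h := hX.lt_iff_lt.1 (by rw [hXκ, hXκ]; exact hb)
    have a3 := tri_neg hX (hone f g hfg) (hone g h hgh) (hone h f hfh.symm) a1 a2
    have a4 : Y f (κ f g) - Y h (κ f g) < 0 := by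
      show F f (X (κ f g)) - F h (X (κ f g)) < 0
      rw [hXκ]
      linarith
    exact sign_pos (pos_of_mul_neg_left a3 a4.le)

end Pool.Agent.H54.GC
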