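import Mathlib

/-!
# Orientations of plane trees (GCTO): definitions

(MP_6dcc4d_co, Q1.)  No `sorry` in this file.
-/

set_option autoImplicit false

namespace Pool.Agent.H54.GC

/-- The cross product of two vectors of the plane.  Half of the sum of `cross p q` over the directed
sides `p → q` of a closed polygon is the signed area enclosed by it. -/
def cross (p q : ℝ × ℝ) : ℝ := p.1 * q.2 - p.2 * q.1

/-- A plane straight line tree: a finite graph-theoretic tree whose vertices are distinct points of
the plane and whose edges are straight segments which have nothing in common but common endpoints. -/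
structure PlaneTree where
  /-- the number of vertices -/
  m : ℕ
  /-- the graph -/
  G : SimpleGraph (Fin m)
  /-- the position of a vertex -/
  pos : Fin m → ℝ × ℝ
  isTree : G.IsTree
  inj : Function.Injective pos
  vertex_edge : ∀ a b v, G.Adj a b → pos v ∈ segment ℝ (pos a) (pos b) → v = a ∨ v = b
  edge_edge : ∀ a b c d, G.Adj a b → G.Adj c d → s(a, b) ≠ s(c, d) →
    ∀ x ∈ segment ℝ (pos a) (pos b) ∩ segment ℝ (pos c) (pos d),
      ∃ v, (v = a ∨ v = b) ∧ (v = c ∨ v = d) ∧ x = pos v

/-- The set of points of the plane which are on the tree. -/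
def PlaneTree.carrier (T : PlaneTree) : Set (ℝ × ℝ) :=
  {x | (∃ v, x = T.pos v) ∨ ∃ a b, T.G.Adj a b ∧ x ∈ segment ℝ (T.pos a) (T.pos b)}

/-- The sum of the cross products over the directed edges of a walk in the tree. -/
def PlaneTree.area (T : PlaneTree) {u v : Fin T.m} (w : T.G.Walk u v) : ℝ :=
  (w.darts.map fun d => cross (T.pos d.fst) (T.pos d.snd)).sum

/-- The plane trees `T i` meet pairwise in exactly one point, no three have a common point, and
`χ i j k` is the orientation of the Jordan polygon which consists of the arc of `T i` from `T k` to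
`T j`, the arc of `T j` from `T i` to `T k` and the arc of `T k` from `T j` to `T i`: it is `+1` if
the polygon is counterclockwise (positive signed area) and `-1` if it is clockwise (negative signed
area).  `v i j` is the vertex of `T i` at which `T i` meets `T j`. -/
def Realizes {n : ℕ} (T : Fin n → PlaneTree) (v : ∀ i : Fin n, Fin n → Fin (T i).m)
    (χ : Fin n → Fin n → Fin n → SignType) : Prop :=
  (∀ i j, i ≠ j → (T i).pos (v i j) = (T j).pos (v j i) ∧
    (T i).carrier ∩ (T j).carrier = {(T i).pos (v i j)}) ∧
  (∀ i j k, i ≠ j → j ≠ k → i ≠ k → (T i).carrier ∩ (T j).carrier ∩ (T k).carrier = ∅) ∧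
  ∀ i j k, i ≠ j → j ≠ k → i ≠ k →
    ∀ (P : (T i).G.Walk (v i k) (v i j)) (Q : (T j).G.Walk (v j i) (v j k))
      (R : (T k).G.Walk (v k j) (v k i)), P.IsPath → Q.IsPath → R.IsPath →
      0 < (χ i j k : ℝ) * ((T i).area P + (T j).area Q + (T k).area R)

/-- `χ` is an orientation realised by plane trees which meet pairwise in exactly one point, no three
sharing a point (value `0` on triples that are not distinct). -/
def IsGCTO {n : ℕ} (χ : Fin n → Fin n → Fin n → SignType) : Prop :=
  (∀ i j k, i = j ∨ j = k ∨ i = k → χ i j k = 0) ∧
  ∃ (T : Fin n → PlaneTree) (v : ∀ i : Fin n, Fin n → Fin (T i).m), Realizes T v χ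

/-- the number of these orientations -/
noncomputable def gcto (n : ℕ) : ℕ := Nat.card {χ : Fin n → Fin n → Fin n → SignType // IsGCTO χ}

end Pool.Agent.H54.GC
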