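import Pool.Agent.H54.GC.Upper

/-!
# Systems of polygonal paths

`pathTree`: the polygonal path through the points `(X k, Y k)`, `k ≤ M`, as a plane tree.
`OneZero`: the difference of two such paths vanishes at exactly one vertex and does not change its
sign inside an edge.
-/

set_option autoImplicit false

namespace Pool.Agent.H54.GC

theorem pathGraph_isTree (M : ℕ) : (SimpleGraph.pathGraph (M + 1)).IsTree := by
  refine ⟨SimpleGraph.pathGraph_connected M, ?_⟩
  rw [SimpleGraph.isAcyclic_iff_forall_adj_isBridge]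
  have key : ∀ a b : Fin (M + 1), a.val + 1 = b.val →
      ¬ ((SimpleGraph.pathGraph (M + 1)) \ SimpleGraph.fromEdgeSet {s(a, b)}).Reachable a b := by
    intro a b hab ⟨w⟩
    have h2 : ∀ (u v : Fin (M + 1))
        (_ : ((SimpleGraph.pathGraph (M + 1)) \ SimpleGraph.fromEdgeSet {s(a, b)}).Walk u v),
        u.val ≤ a.val → v.val ≤ a.val := by
      intro u v w
      induction w with
      | nil => exact id
      | @cons u c v h p ih =>
        intro hu
        refine ih ?_
        rw [SimpleGraph.sdiff_adj, SimpleGraph.pathGraph_adj, SimpleGraph.fromEdgeSet_adj] at h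
        obtain ⟨h3, h4⟩ := h
        by_contra h5
        push Not at h5
        rcases h3 with h3 | h3
        · have h6 : u = a := Fin.ext (by omega)
          have h7 : c = b := Fin.ext (by omega)
          subst h6
          subst h7
          refine h4 ⟨by simp, ?_⟩
          intro h8
          rw [h8] at h5
          exact lt_irrefl _ h5
        · omega
    have h3 := h2 a b w le_rfl
    omega
  intro a b hab
  rw [SimpleGraph.isBridge_iff]
  rw [SimpleGraph.pathGraph_adj] at hab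
  rcases hab with hab | hab
  · refine key a b hab
  · have h1 := key b a hab
    intro h2
    refine h1 ?_
    have h3 : s(b, a) = s(a, b) := Sym2.eq_swap
    rw [h3]
    exact h2.symm


/-- the point with parameters `k`, `t` of the polygonal path `(X, Y)` -/
def ptAt (X Y : ℕ → ℝ) (k : ℕ) (t : ℝ) : ℝ × ℝ :=
  (X k + t * (X (k + 1) - X k), Y k + t * (Y (k + 1) - Y k))

theorem ptAt_zero (X Y : ℕ → ℝ) (k : ℕ) : ptAt X Y k 0 = (X k, Y k) := by
  simp [ptAt]

theorem mem_seg_succ (X Y : ℕ → ℝ) (k : ℕ) (x : ℝ × ℝ)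
    (hx : x ∈ segment ℝ (X k, Y k) (X (k + 1), Y (k + 1))) :
    ∃ t : ℝ, 0 ≤ t ∧ t ≤ 1 ∧ x = ptAt X Y k t := by
  rw [segment_eq_image'] at hx
  obtain ⟨t, ht, rfl⟩ := hx
  refine ⟨t, ht.1, ht.2, ?_⟩
  simp [ptAt]

/-- the first coordinate determines the parameters -/
theorem param_unique (X : ℕ → ℝ) (hX : StrictMono X) (k l : ℕ) (t u : ℝ) (ht0 : 0 ≤ t) (ht1 : t < 1)
    (hu0 : 0 ≤ u) (hu1 : u < 1)
    (h : X k + t * (X (k + 1) - X k) = X l + u * (X (l + 1) - X l)) : k = l ∧ t = u := by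
  have hk : 0 < X (k + 1) - X k := sub_pos.2 (hX (Nat.lt_succ_self k))
  have hl : 0 < X (l + 1) - X l := sub_pos.2 (hX (Nat.lt_succ_self l))
  have e1 : X k ≤ X k + t * (X (k + 1) - X k) := by nlinarith
  have e2 : X k + t * (X (k + 1) - X k) < X (k + 1) := by nlinarith
  have e3 : X l ≤ X l + u * (X (l + 1) - X l) := by nlinarith
  have e4 : X l + u * (X (l + 1) - X l) < X (l + 1) := by nlinarith
  have h1 : k < l + 1 := hX.lt_iff_lt.1 (by linarith)
  have h2 : l < k + 1 := hX.lt_iff_lt.1 (by linarith)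
  have h3 : k = l := by omega
  subst h3
  refine ⟨rfl, ?_⟩
  have h4 : t * (X (k + 1) - X k) = u * (X (k + 1) - X k) := by linarith
  exact mul_right_cancel₀ hk.ne' h4

/-- the polygonal path as a plane tree -/
noncomputable def pathTree (M : ℕ) (X : ℕ → ℝ) (hX : StrictMono X) (Y : ℕ → ℝ) : PlaneTree where
  m := M + 1
  G := SimpleGraph.pathGraph (M + 1)
  pos := fun k => (X k, Y k)
  isTree := pathGraph_isTree M
  inj := by
    intro a b h
    exact Fin.ext (hX.injective (Prod.ext_iff.1 h).1)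
  vertex_edge := by
    have key : ∀ a b v : Fin (M + 1), a.val + 1 = b.val →
        (X v, Y v) ∈ segment ℝ (X a, Y a) (X b, Y b) → v = a ∨ v = b := by
      intro a b v hab hv
      rw [← hab] at hv
      obtain ⟨t, ht0, ht1, h⟩ := mem_seg_succ X Y a _ hv
      have h1 : X v = X a + t * (X (a.val + 1) - X a) := (Prod.ext_iff.1 h).1
      rcases ht1.lt_or_eq with ht1 | rfl
      · left
        have h2 := param_unique X hX v a 0 t le_rfl one_pos ht0 ht1 (by rw [zero_mul, add_zero]; exact h1)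
        exact Fin.ext h2.1
      · right
        refine Fin.ext ?_
        rw [← hab]
        refine hX.injective ?_
        rw [h1]
        ring
    intro a b v hab hv
    rw [SimpleGraph.pathGraph_adj] at hab
    rcases hab with hab | hab
    · exact key a b v hab hv
    · rw [segment_symm] at hv
      exact (key b a v hab hv).symm
  edge_edge := by
    have key : ∀ a b c d : Fin (M + 1), a.val + 1 = b.val → c.val + 1 = d.val → a.val < c.val →
        ∀ x ∈ segment ℝ (X a, Y a) (X b, Y b) ∩ segment ℝ (X c, Y c) (X d, Y d),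
          ∃ v : Fin (M + 1), (v = a ∨ v = b) ∧ (v = c ∨ v = d) ∧ x = (X v, Y v) := by
      intro a b c d hab hcd hac x hx
      rw [← hab, ← hcd] at hx
      obtain ⟨t, ht0, ht1, h⟩ := mem_seg_succ X Y a _ hx.1
      obtain ⟨u, hu0, hu1, h'⟩ := mem_seg_succ X Y c _ hx.2
      have h1 : x.1 = X a + t * (X (a.val + 1) - X a) := by rw [h]; rfl
      have h2 : x.1 = X c + u * (X (c.val + 1) - X c) := by rw [h']; rfl
      have hka : 0 < X (a.val + 1) - X a := sub_pos.2 (hX (Nat.lt_succ_self _))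
      have hkc : 0 < X (c.val + 1) - X c := sub_pos.2 (hX (Nat.lt_succ_self _))
      have h3 : X (a.val + 1) ≤ X c := hX.monotone hac
      have h4 : t = 1 := by
        have : X (a.val + 1) - X a ≤ t * (X (a.val + 1) - X a) := by nlinarith
        nlinarith
      have h5 : X (a.val + 1) = X c := by
        rw [h4] at h1
        nlinarith
      have h6 : a.val + 1 = c.val := hX.injective h5
      refine ⟨b, Or.inr rfl, Or.inl (Fin.ext (by omega)), ?_⟩
      rw [h, h4, ← hab]
      simp [ptAt]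
    intro a b c d hab hcd hne x hx
    rw [SimpleGraph.pathGraph_adj] at hab hcd
    have sw : ∀ p q : ℝ × ℝ, segment ℝ p q = segment ℝ q p := fun p q => segment_symm ℝ p q
    rcases hab with hab | hab <;> rcases hcd with hcd | hcd
    · rcases lt_trichotomy a.val c.val with h | h | h
      · exact key a b c d hab hcd h x hx
      · exact absurd (by rw [Fin.ext h, Fin.ext (show b.val = d.val by omega)]) hne
      · obtain ⟨v, h1, h2, h3⟩ := key c d a b hcd hab h x ⟨hx.2, hx.1⟩
        exact ⟨v, h2, h1, h3⟩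
    · rw [sw (X c, Y c)] at hx
      rcases lt_trichotomy a.val d.val with h | h | h
      · obtain ⟨v, h1, h2, h3⟩ := key a b d c hab hcd h x hx
        exact ⟨v, h1, h2.symm, h3⟩
      · exact absurd (by rw [Fin.ext h, Fin.ext (show b.val = c.val by omega)]; exact Sym2.eq_swap) hne
      · obtain ⟨v, h1, h2, h3⟩ := key d c a b hcd hab h x ⟨hx.2, hx.1⟩
        exact ⟨v, h2, h1.symm, h3⟩
    · rw [sw (X a, Y a)] at hx
      rcases lt_trichotomy b.val c.val with h | h | h
      · obtain ⟨v, h1, h2, h3⟩ := key b a c d hab hcd h x hx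
        exact ⟨v, h1.symm, h2, h3⟩
      · exact absurd (by rw [Fin.ext h, Fin.ext (show a.val = d.val by omega)]; exact Sym2.eq_swap) hne
      · obtain ⟨v, h1, h2, h3⟩ := key c d b a hcd hab h x ⟨hx.2, hx.1⟩
        exact ⟨v, h2.symm, h1, h3⟩
    · rw [sw (X a, Y a), sw (X c, Y c)] at hx
      rcases lt_trichotomy b.val d.val with h | h | h
      · obtain ⟨v, h1, h2, h3⟩ := key b a d c hab hcd h x hx
        exact ⟨v, h1.symm, h2.symm, h3⟩
      · exact absurd (by rw [Fin.ext h, Fin.ext (show a.val = c.val by omega)]) hne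
      · obtain ⟨v, h1, h2, h3⟩ := key d c b a hcd hab h x ⟨hx.2, hx.1⟩
        exact ⟨v, h2.symm, h1.symm, h3⟩

theorem mem_carrier (M : ℕ) (X : ℕ → ℝ) (hX : StrictMono X) (Y : ℕ → ℝ) (x : ℝ × ℝ)
    (hx : x ∈ (pathTree M X hX Y).carrier) :
    ∃ k t, k ≤ M ∧ 0 ≤ t ∧ t < 1 ∧ (t ≠ 0 → k < M) ∧ x = ptAt X Y k t := by
  have key : ∀ a b : Fin (M + 1), a.val + 1 = b.val →
      x ∈ segment ℝ (X a, Y a) (X b, Y b) →
      ∃ k t, k ≤ M ∧ 0 ≤ t ∧ t < 1 ∧ (t ≠ 0 → k < M) ∧ x = ptAt X Y k t := by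
    intro a b hab h
    rw [← hab] at h
    obtain ⟨t, ht0, ht1, h⟩ := mem_seg_succ X Y a _ h
    rcases ht1.lt_or_eq with ht1 | rfl
    · exact ⟨a, t, by omega, ht0, ht1, fun _ => by omega, h⟩
    · refine ⟨b, 0, by omega, le_rfl, one_pos, fun h => absurd rfl h, ?_⟩
      rw [h, ptAt_zero, ← hab]
      simp [ptAt]
  rcases hx with ⟨v, rfl⟩ | ⟨a, b, hab, h⟩
  · exact ⟨v.val, 0, Nat.lt_succ_iff.1 v.isLt, le_rfl, one_pos, fun h => absurd rfl h,
      (ptAt_zero X Y _).symm⟩
  · have hab' : a.val + 1 = b.val ∨ b.val + 1 = a.val := SimpleGraph.pathGraph_adj.1 hab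
    rcases hab' with hab' | hab'
    · exact key a b hab' h
    · rw [segment_symm] at h
      exact key b a hab' h

theorem vertex_mem (M : ℕ) (X : ℕ → ℝ) (hX : StrictMono X) (Y : ℕ → ℝ) (k : ℕ) (hk : k ≤ M) :
    (X k, Y k) ∈ (pathTree M X hX Y).carrier :=
  Or.inl ⟨(⟨k, Nat.lt_succ_of_le hk⟩ : Fin (M + 1)), rfl⟩

/-- `D` vanishes at exactly one vertex `κ ≤ M` and does not change its sign inside an edge. -/
def OneZero (M : ℕ) (D : ℕ → ℝ) (κ : ℕ) : Prop :=
  κ ≤ M ∧ D κ = 0 ∧ (∀ k ≤ M, k ≠ κ → D k ≠ 0) ∧ ∀ k < M, 0 ≤ D k * D (k + 1)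

theorem inter_eq (M : ℕ) (X : ℕ → ℝ) (hX : StrictMono X) (Y Z : ℕ → ℝ) (κ : ℕ)
    (h : OneZero M (fun k => Y k - Z k) κ) :
    (pathTree M X hX Y).carrier ∩ (pathTree M X hX Z).carrier = {(X κ, Y κ)} := by
  obtain ⟨h0, h1, h2, h3⟩ := h
  have h1' : Y κ = Z κ := sub_eq_zero.1 h1
  refine Set.Subset.antisymm ?_ ?_
  · rintro x ⟨hx, hx'⟩
    obtain ⟨k, t, hk, ht0, ht1, htk, h⟩ := mem_carrier _ _ _ _ _ hx
    obtain ⟨l, u, hl, hu0, hu1, _, h'⟩ := mem_carrier _ _ _ _ _ hx'
    have e1 : ptAt X Y k t = ptAt X Z l u := by rw [← h, ← h']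
    obtain ⟨rfl, rfl⟩ := param_unique X hX k l t u ht0 ht1 hu0 hu1 (Prod.ext_iff.1 e1).1
    have e2 : Y k + t * (Y (k + 1) - Y k) = Z k + t * (Z (k + 1) - Z k) := (Prod.ext_iff.1 e1).2
    have e3 : (1 - t) * (Y k - Z k) + t * (Y (k + 1) - Z (k + 1)) = 0 := by linarith
    have e4 : t = 0 := by
      by_contra ht
      have hkM := htk ht
      have ht' : 0 < t := lt_of_le_of_ne ht0 (Ne.symm ht)
      have e5 := h3 k hkM
      simp only at e5
      have a1 : 0 < 1 - t := by linarith
      have a2 : (1 - t) * (Y k - Z k) = -(t * (Y (k + 1) - Z (k + 1))) := by linarith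
      have a3 : (1 - t) * ((Y k - Z k) * (Y (k + 1) - Z (k + 1))) =
          -(t * (Y (k + 1) - Z (k + 1)) ^ 2) := by
        calc (1 - t) * ((Y k - Z k) * (Y (k + 1) - Z (k + 1)))
            = ((1 - t) * (Y k - Z k)) * (Y (k + 1) - Z (k + 1)) := by ring
          _ = _ := by rw [a2]; ring
      have a4 : 0 ≤ (1 - t) * ((Y k - Z k) * (Y (k + 1) - Z (k + 1))) := mul_nonneg a1.le e5
      have a5 : (Y (k + 1) - Z (k + 1)) ^ 2 = 0 := by
        have : t * (Y (k + 1) - Z (k + 1)) ^ 2 ≤ 0 := by linarith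
        have b1 : 0 ≤ (Y (k + 1) - Z (k + 1)) ^ 2 := sq_nonneg _
        nlinarith
      have a6 : Y (k + 1) - Z (k + 1) = 0 := by
        exact pow_eq_zero_iff (two_ne_zero) |>.1 a5
      have a7 : Y k - Z k = 0 := by
        rw [a6, mul_zero, neg_zero] at a2
        rcases mul_eq_zero.1 a2 with a | a
        · exact absurd a a1.ne'
        · exact a
      have b1 : k = κ := by
        by_contra hh
        exact h2 k hk hh a7
      have b2 : k + 1 = κ := by
        by_contra hh
        exact h2 (k + 1) hkM hh a6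
      omega
    rw [e4] at e3
    have e5 : Y k - Z k = 0 := by linarith
    have e6 : k = κ := by
      by_contra hh
      exact h2 k hk hh e5
    rw [h, e4, e6, ptAt_zero]
    rfl
  · rintro x rfl
    exact ⟨vertex_mem _ _ _ _ _ h0, h1' ▸ vertex_mem _ _ _ _ _ h0⟩

end Pool.Agent.H54.GC
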