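import Pool.Agent.H54.GC.Low2
import Pool.Agent.H54.CT.Fin

/-!
# Asymptotic form
-/

set_option autoImplicit false

namespace Pool.Agent.H54.GC

theorem exists_cube (n : ℕ) : ∃ N : ℕ, 5 * N ^ 3 ≤ n ∧ n < 5 * (N + 1) ^ 3 := by
  induction n with
  | zero => exact ⟨0, by norm_num, by norm_num⟩
  | succ n ih =>
    obtain ⟨N, h1, h2⟩ := ih
    by_cases h : n + 1 < 5 * (N + 1) ^ 3
    · exact ⟨N, by omega, h⟩
    · refine ⟨N + 1, by omega, ?_⟩
      have : (N + 1) ^ 3 < (N + 1 + 1) ^ 3 := Nat.pow_lt_pow_left (Nat.lt_succ_self _) (by norm_num)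
      omega

theorem log_lower (n : ℕ) (hn : 5 ≤ n) :
    (n : ℝ) ^ ((4 : ℝ) / 3) / 200 ≤ Real.log (gcto n) := by
  obtain ⟨N, h1, h2⟩ := exists_cube n
  have hN : 1 ≤ N := by
    by_contra h
    have : N = 0 := by omega
    subst this
    norm_num at h2
    omega
  obtain ⟨r, rfl⟩ : ∃ r, n = 5 * N ^ 3 + r := ⟨n - 5 * N ^ 3, by omega⟩
  have h3 := lower_nat hN r
  have h4 : ((2 : ℝ) ^ N ^ 4) ≤ (gcto (5 * N ^ 3 + r) : ℝ) := by exact_mod_cast h3
  have h5 : (N : ℝ) ^ 4 * Real.log 2 ≤ Real.log (gcto (5 * N ^ 3 + r)) := by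
    have := Real.log_le_log (by positivity) h4
    rw [Real.log_pow] at this
    push_cast at this
    exact this
  refine le_trans ?_ h5
  have h6 : ((5 * N ^ 3 + r : ℕ) : ℝ) ≤ 40 * (N : ℝ) ^ 3 := by
    have e1 : 5 * N ^ 3 + r ≤ 40 * N ^ 3 := by
      have e2 : (N + 1) ^ 3 ≤ (2 * N) ^ 3 := Nat.pow_le_pow_left (by omega) 3
      have e3 : (2 * N) ^ 3 = 8 * N ^ 3 := by ring
      omega
    exact_mod_cast e1
  have hN0 : (0 : ℝ) ≤ N := by positivity
  have h7 : ((5 * N ^ 3 + r : ℕ) : ℝ) ^ ((4 : ℝ) / 3) ≤ (40 * (N : ℝ) ^ 3) ^ ((4 : ℝ) / 3) :=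
    Real.rpow_le_rpow (by positivity) h6 (by norm_num)
  have h8 : (40 * (N : ℝ) ^ 3) ^ ((4 : ℝ) / 3) ≤ 137 * (N : ℝ) ^ 4 := by
    have e1 : (40 * (N : ℝ) ^ 3) ^ ((4 : ℝ) / 3) = ((40 : ℝ) ^ 4) ^ ((1 : ℝ) / 3) * (N : ℝ) ^ 4 := by
      rw [Real.mul_rpow (by norm_num) (by positivity)]
      congr 1
      · rw [← Real.rpow_natCast, ← Real.rpow_mul (by norm_num)]
        norm_num
      · rw [← Real.rpow_natCast, ← Real.rpow_natCast, ← Real.rpow_mul hN0]
        norm_num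
    have e2 : ((40 : ℝ) ^ 4) ^ ((1 : ℝ) / 3) ≤ 137 := by
      calc ((40 : ℝ) ^ 4) ^ ((1 : ℝ) / 3) ≤ ((137 : ℝ) ^ 3) ^ ((1 : ℝ) / 3) :=
            Real.rpow_le_rpow (by norm_num) (by norm_num) (by norm_num)
        _ = 137 := by
            rw [← Real.rpow_natCast, ← Real.rpow_mul (by norm_num)]
            norm_num
    rw [e1]
    gcongr
  have h9 := Real.log_two_gt_d9
  have h10 : (0 : ℝ) ≤ (N : ℝ) ^ 4 := by positivity
  nlinarith

theorem log_upper (n : ℕ) (hn : 2 ≤ n) :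
    Real.log (gcto n) ≤ 5 * (n : ℝ) ^ 2 * Real.log n := by
  have h1 := upper n
  have hnr : (2 : ℝ) ≤ n := by exact_mod_cast hn
  have hlog : 0 < Real.log n := Real.log_pos (by linarith)
  have h2 : 2 * (n ^ 3 + 3) ^ n ^ 2 ≤ n ^ (5 * n ^ 2) := by
    have e1 : n ^ 3 + 3 ≤ n ^ 4 := by
      have a1 : 8 ≤ n ^ 3 := by
        calc 8 = 2 ^ 3 := by norm_num
          _ ≤ n ^ 3 := Nat.pow_le_pow_left hn 3
      calc n ^ 3 + 3 ≤ n ^ 3 * 2 := by omega
        _ ≤ n ^ 3 * n := Nat.mul_le_mul_left _ hn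
        _ = n ^ 4 := by ring
    have e2 : 2 ≤ n ^ n ^ 2 := by
      calc 2 ≤ n := hn
        _ = n ^ 1 := (pow_one n).symm
        _ ≤ n ^ n ^ 2 := Nat.pow_le_pow_right (by omega) (Nat.one_le_pow _ _ (by omega))
    calc 2 * (n ^ 3 + 3) ^ n ^ 2 ≤ n ^ n ^ 2 * (n ^ 4) ^ n ^ 2 := by gcongr
      _ = n ^ (5 * n ^ 2) := by
        rw [← pow_mul, ← pow_add]
        congr 1
        ring
  have h3 : (gcto n : ℝ) ≤ (n : ℝ) ^ (5 * n ^ 2) := by exact_mod_cast h1.trans h2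
  rcases Nat.eq_zero_or_pos (gcto n) with h0 | h0
  · rw [h0]
    simp only [CharP.cast_eq_zero, Real.log_zero]
    positivity
  · have h4 := Real.log_le_log (by exact_mod_cast h0) h3
    rw [Real.log_pow] at h4
    push_cast at h4
    linarith

/-- `log c(n) / log g(n) → 0` -/
theorem ratio : Filter.Tendsto (fun n : ℕ => Real.log (CT.cto n) / Real.log (gcto n))
    Filter.atTop (nhds 0) := by
  obtain ⟨K, hK⟩ := CT.cto_upper
  have h1 : ∀ᶠ n : ℕ in Filter.atTop, |Real.log (CT.cto n) / Real.log (gcto n)| ≤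
      200 * K * (Real.log n ^ K / (n : ℝ) ^ ((1 : ℝ) / 3)) := by
    filter_upwards [Filter.eventually_ge_atTop 5] with n hn
    have hn0 : (0 : ℝ) < n := by
      have : 0 < n := by omega
      exact_mod_cast this
    have e1 := log_lower n hn
    have e2 := hK n (by omega)
    have e3 : 0 ≤ Real.log (CT.cto n) := by
      rcases Nat.eq_zero_or_pos (CT.cto n) with h | h
      · rw [h]; simp
      · exact Real.log_nonneg (by exact_mod_cast h)
    have e4 : Real.log (CT.cto n) ≤ K * n * Real.log n ^ K := by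
      rcases Nat.eq_zero_or_pos (CT.cto n) with h | h
      · rw [h]
        simp only [CharP.cast_eq_zero, Real.log_zero]
        have : 0 ≤ Real.log n := Real.log_natCast_nonneg n
        positivity
      · rw [Real.log_le_iff_le_exp (by exact_mod_cast h)]
        exact e2
    have e5 : (n : ℝ) ^ ((4 : ℝ) / 3) = n * (n : ℝ) ^ ((1 : ℝ) / 3) := by
      rw [show (4 : ℝ) / 3 = 1 + 1 / 3 by norm_num, Real.rpow_add hn0, Real.rpow_one]
    have e6 : 0 < (n : ℝ) ^ ((1 : ℝ) / 3) := Real.rpow_pos_of_pos hn0 _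
    rw [e5] at e1
    have e7 : 0 < Real.log (gcto n) := by
      have : 0 < n * (n : ℝ) ^ ((1 : ℝ) / 3) / 200 := by positivity
      linarith
    rw [abs_of_nonneg (div_nonneg e3 e7.le), div_le_iff₀ e7]
    calc Real.log (CT.cto n) ≤ K * n * Real.log n ^ K := e4
      _ = 200 * K * (Real.log n ^ K / (n : ℝ) ^ ((1 : ℝ) / 3)) *
          (n * (n : ℝ) ^ ((1 : ℝ) / 3) / 200) := by
          field_simp
      _ ≤ _ := by
          refine mul_le_mul_of_nonneg_left e1 ?_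
          have : 0 ≤ Real.log n := Real.log_natCast_nonneg n
          positivity
  refine squeeze_zero_norm' (a := fun n : ℕ => 200 * (K : ℝ) *
    (Real.log n ^ K / (n : ℝ) ^ ((1 : ℝ) / 3)))
    (h1.mono fun n hn => by rw [Real.norm_eq_abs]; exact hn) ?_
  have h2 : Filter.Tendsto (fun x : ℝ => Real.log x ^ K / x ^ ((1 : ℝ) / 3)) Filter.atTop
      (nhds 0) := by
    have h3 := (isLittleO_log_rpow_rpow_atTop (K : ℝ) (by norm_num : (0 : ℝ) < 1 / 3)).tendsto_div_nhds_zero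
    refine h3.congr' ?_
    filter_upwards with x
    rw [Real.rpow_natCast]
  have h4 := (h2.comp tendsto_natCast_atTop_atTop).const_mul (200 * (K : ℝ))
  rw [mul_zero] at h4
  exact h4

theorem log_cto_le {K : ℕ} (hK : ∀ n : ℕ, 3 ≤ n →
    (CT.cto n : ℝ) ≤ Real.exp (K * n * Real.log n ^ K)) (n : ℕ) (hn : 3 ≤ n) :
    Real.log (CT.cto n) ≤ K * n * Real.log n ^ K := by
  rcases Nat.eq_zero_or_pos (CT.cto n) with h | h
  · rw [h]
    simp only [CharP.cast_eq_zero, Real.log_zero]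
    have : 0 ≤ Real.log n := Real.log_natCast_nonneg n
    positivity
  · rw [Real.log_le_iff_le_exp (by exact_mod_cast h)]
    exact hK n hn

/-- `log c(n) ≤ (log g(n)) ^ (3/4 + ε)` for all large `n` -/
theorem power (ε : ℝ) (hε : 0 < ε) : ∀ᶠ n : ℕ in Filter.atTop,
    Real.log (CT.cto n) ≤ Real.log (gcto n) ^ ((3 : ℝ) / 4 + ε) := by
  obtain ⟨K, hK⟩ := CT.cto_upper
  set s : ℝ := (3 : ℝ) / 4 + ε with hs
  have hs0 : 0 < s := by positivity
  have hB : (0 : ℝ) < (200 : ℝ) ^ s := by positivity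
  set c : ℝ := 1 / ((K : ℝ) * (200 : ℝ) ^ s + 1) with hc
  have hden : (0 : ℝ) < (K : ℝ) * (200 : ℝ) ^ s + 1 := by positivity
  have hc0 : 0 < c := by positivity
  have h1 : ∀ᶠ x : ℝ in Filter.atTop, Real.log x ^ K ≤ c * x ^ (4 * ε / 3) := by
    have h2 := (isLittleO_log_rpow_rpow_atTop (K : ℝ)
      (by positivity : (0 : ℝ) < 4 * ε / 3)).def hc0
    filter_upwards [h2, Filter.eventually_ge_atTop (1 : ℝ)] with x hx hx1
    have a1 : 0 ≤ Real.log x := Real.log_nonneg hx1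
    rw [Real.norm_eq_abs, Real.norm_eq_abs, Real.rpow_natCast, abs_of_nonneg (by positivity),
      abs_of_nonneg (by positivity)] at hx
    exact hx
  filter_upwards [tendsto_natCast_atTop_atTop.eventually h1, Filter.eventually_ge_atTop 5]
    with n hn1 hn
  have hn0 : (0 : ℝ) < n := by
    have : 0 < n := by omega
    exact_mod_cast this
  have e1 := log_lower n hn
  have e2 := log_cto_le hK n (by omega)
  have e3 : ((n : ℝ) ^ ((4 : ℝ) / 3) / 200) ^ s ≤ Real.log (gcto n) ^ s :=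
    Real.rpow_le_rpow (by positivity) e1 hs0.le
  have e4 : ((n : ℝ) ^ ((4 : ℝ) / 3) / 200) ^ s = n * ((n : ℝ) ^ (4 * ε / 3) / (200 : ℝ) ^ s) := by
    rw [Real.div_rpow (by positivity) (by norm_num), ← Real.rpow_mul hn0.le, ← mul_div_assoc]
    congr 1
    rw [show (4 : ℝ) / 3 * s = 1 + 4 * ε / 3 by rw [hs]; ring, Real.rpow_add hn0, Real.rpow_one]
  rw [e4] at e3
  refine le_trans e2 (le_trans ?_ e3)
  have e5 : (K : ℝ) * n * Real.log n ^ K = n * (K * Real.log n ^ K) := by ring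
  rw [e5]
  refine mul_le_mul_of_nonneg_left ?_ hn0.le
  rw [le_div_iff₀ hB]
  have e6 : (0 : ℝ) ≤ (n : ℝ) ^ (4 * ε / 3) := by positivity
  calc (K : ℝ) * Real.log n ^ K * (200 : ℝ) ^ s
      = (K * (200 : ℝ) ^ s) * Real.log n ^ K := by ring
    _ ≤ (K * (200 : ℝ) ^ s) * (c * (n : ℝ) ^ (4 * ε / 3)) :=
        mul_le_mul_of_nonneg_left hn1 (by positivity)
    _ = ((K * (200 : ℝ) ^ s) * c) * (n : ℝ) ^ (4 * ε / 3) := by ring
    _ ≤ 1 * (n : ℝ) ^ (4 * ε / 3) := by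
        refine mul_le_mul_of_nonneg_right ?_ e6
        rw [hc, mul_one_div, div_le_one hden]
        linarith
    _ = (n : ℝ) ^ (4 * ε / 3) := one_mul _

end Pool.Agent.H54.GC
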