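import Pool.Agent.H54.GC.Cont

/-!
# Generic offsets
-/

set_option autoImplicit false

namespace Pool.Agent.H54.GC

/-- With generic small offsets no three curves have a common point. -/
theorem exists_offset {𝒞 I : Type*} [Finite 𝒞] [Fintype I] [DecidableEq I] (item : 𝒞 → I)
    (f : 𝒞 → ℝ → ℝ)
    (hpair : ∀ (τ : I → ℝ) (c d : 𝒞), c ≠ d → ∃! x, f c x + τ (item c) = f d x + τ (item d))
    (hitem : ∀ c d e : 𝒞, c ≠ d → d ≠ e → c ≠ e → item c = item d → item d ≠ item e)
    (ε : ℝ) (hε : 0 < ε) :
    ∃ τ : I → ℝ, (∀ i, 0 < τ i ∧ τ i < ε) ∧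
      ∀ c d e : 𝒞, c ≠ d → d ≠ e → c ≠ e → ∀ x,
        ¬ (f c x + τ (item c) = f d x + τ (item d) ∧ f d x + τ (item d) = f e x + τ (item e)) := by
  classical
  have main : ∀ S : Finset I, ∃ τ : I → ℝ, (∀ i, 0 < τ i ∧ τ i < ε) ∧
      ∀ c d e : 𝒞, item c ∈ S → item d ∈ S → item e ∈ S → c ≠ d → d ≠ e → c ≠ e → ∀ x,
        ¬ (f c x + τ (item c) = f d x + τ (item d) ∧
          f d x + τ (item d) = f e x + τ (item e)) := by
    intro S
    induction S using Finset.induction_on with
    | empty =>
      refine ⟨fun _ => ε / 2, fun _ => ⟨by positivity, by linarith⟩, ?_⟩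
      intro c d e hc
      exact absurd hc (Finset.notMem_empty _)
    | @insert k S hk ih =>
      obtain ⟨τ, hτ, hS⟩ := ih
      -- the zero of a pair
      have hz : ∃ z : 𝒞 → 𝒞 → ℝ, ∀ c d, c ≠ d → ∀ x,
          f c x + τ (item c) = f d x + τ (item d) → x = z c d := by
        refine ⟨fun c d => if h : c ≠ d then (hpair τ c d h).choose else 0, fun c d h x hx => ?_⟩
        simp only [dif_pos h]
        exact (hpair τ c d h).choose_spec.2 x hx
      obtain ⟨z, hz⟩ := hz
      let bad : 𝒞 × 𝒞 × 𝒞 × Bool → ℝ := fun p =>
        let x := if p.2.2.2 then z p.1 p.2.1 else z p.2.1 p.2.2.1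
        f p.1 x + τ (item p.1) - f p.2.2.1 x
      have hfin : (Set.range bad).Finite := Set.finite_range bad
      have hinf : (Set.Ioo 0 ε).Infinite := Set.Ioo_infinite hε
      obtain ⟨v, hv, hvb⟩ := (hinf.sdiff hfin).nonempty
      refine ⟨Function.update τ k v, ?_, ?_⟩
      · intro i
        by_cases hi : i = k
        · subst hi
          rw [Function.update_self]
          exact hv
        · rw [Function.update_of_ne hi]
          exact hτ i
      · -- the basic case: `item a ≠ k`, `item b = k`
        have key : ∀ a c b : 𝒞, item a ≠ k → item b = k → a ≠ c → c ≠ b → a ≠ b → ∀ x,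
            f a x + Function.update τ k v (item a) = f c x + Function.update τ k v (item c) →
            f c x + Function.update τ k v (item c) = f b x + Function.update τ k v (item b) →
            False := by
          intro a c b ha hb hac hcb hab x h1 h2
          rw [hb, Function.update_self] at h2
          rw [Function.update_of_ne ha] at h1
          by_cases hc : item c = k
          · rw [hc, Function.update_self] at h1 h2
            have h3 : f c x + τ (item c) = f b x + τ (item b) := by
              rw [hc, hb]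
              linarith
            have h4 := hz c b hcb x h3
            refine hvb ⟨(a, c, b, false), ?_⟩
            show f a (z c b) + τ (item a) - f b (z c b) = v
            rw [← h4]
            linarith
          · rw [Function.update_of_ne hc] at h1 h2
            have h4 := hz a c hac x h1
            refine hvb ⟨(a, c, b, true), ?_⟩
            show f a (z a c) + τ (item a) - f b (z a c) = v
            rw [← h4]
            linarith
        intro c d e hc hd he hcd hde hce x hx
        obtain ⟨h1, h2⟩ := hx
        have hmem : ∀ c : 𝒞, item c ∈ insert k S → item c ≠ k → item c ∈ S := fun c h1 h2 =>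
          Finset.mem_of_mem_insert_of_ne h1 h2
        by_cases e1 : item c = k <;> by_cases e2 : item d = k <;> by_cases e3 : item e = k
        · exact hitem c d e hcd hde hce (e1.trans e2.symm) (e2.trans e3.symm)
        · exact key e c d e3 e2 hce.symm hcd hde.symm x (h1.trans h2).symm h1
        · exact key d e c e2 e1 hde hce.symm hcd.symm x h2 (h1.trans h2).symm
        · exact key d e c e2 e1 hde hce.symm hcd.symm x h2 (h1.trans h2).symm
        · exact key c d e e1 e3 hcd hde hce x h1 h2
        · exact key c e d e1 e2 hce hde.symm hcd x (h1.trans h2) h2.symm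
        · exact key c d e e1 e3 hcd hde hce x h1 h2
        · refine hS c d e (hmem c hc e1) (hmem d hd e2) (hmem e he e3) hcd hde hce x ⟨?_, ?_⟩
          · rwa [Function.update_of_ne e1, Function.update_of_ne e2] at h1
          · rwa [Function.update_of_ne e2, Function.update_of_ne e3] at h2
  obtain ⟨τ, h1, h2⟩ := main Finset.univ
  exact ⟨τ, h1, fun c d e => h2 c d e (Finset.mem_univ _) (Finset.mem_univ _) (Finset.mem_univ _)⟩

/-- a continuous function which grows with slope at least `m` takes every value exactly once -/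
theorem existsUnique_of_growth {D : ℝ → ℝ} (hD : Continuous D) {m : ℝ} (hm : 0 < m)
    (h : ∀ x y, x < y → m * (y - x) ≤ D y - D x) : ∃! x, D x = 0 := by
  have hmono : StrictMono D := fun x y hxy => by
    have := h x y hxy
    have h2 : 0 < m * (y - x) := mul_pos hm (sub_pos.2 hxy)
    linarith
  have hR : ∃ R : ℝ, 0 < R ∧ |D 0| ≤ m * R := by
    refine ⟨|D 0| / m + 1, by positivity, ?_⟩
    have : m * (|D 0| / m + 1) = |D 0| + m := by field_simp
    rw [this]
    linarith
  obtain ⟨R, hR0, hR⟩ := hR
  have h1 := h 0 R hR0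
  have h2 := h (-R) 0 (by linarith)
  have h3 := abs_le.1 hR
  have h4 : D (-R) ≤ 0 := by nlinarith
  have h5 : 0 ≤ D R := by nlinarith
  obtain ⟨x, _, hx⟩ := intermediate_value_Icc (by linarith : -R ≤ R) hD.continuousOn
    (show (0 : ℝ) ∈ Set.Icc (D (-R)) (D R) from ⟨h4, h5⟩)
  refine ⟨x, hx, fun y hy => hmono.injective ?_⟩
  simp only at hy hx
  rw [hy, hx]

/-- curves with slopes at distance at least one and perturbations with Lipschitz constant `1/4` -/
theorem existsUnique_slope {k l β γ : ℝ} {ψ χ : ℝ → ℝ} (hψ : LipschitzWith (1 / 4) ψ)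
    (hχ : LipschitzWith (1 / 4) χ) (hkl : 1 ≤ |k - l|) :
    ∃! x, k * x + β + ψ x = l * x + γ + χ x := by
  have e1 : ∀ x y, x < y → |ψ y - ψ x| ≤ (y - x) / 4 := fun x y hxy => by
    have := hψ.dist_le_mul y x
    rw [Real.dist_eq, Real.dist_eq, abs_of_pos (sub_pos.2 hxy)] at this
    norm_num at this
    linarith
  have e2 : ∀ x y, x < y → |χ y - χ x| ≤ (y - x) / 4 := fun x y hxy => by
    have := hχ.dist_le_mul y x
    rw [Real.dist_eq, Real.dist_eq, abs_of_pos (sub_pos.2 hxy)] at this
    norm_num at this
    linarith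
  have hc : Continuous fun x => (k * x + β + ψ x) - (l * x + γ + χ x) := by
    have := hψ.continuous
    have := hχ.continuous
    fun_prop
  rcases le_total l k with h | h
  · have hkl' : 1 ≤ k - l := by rwa [abs_of_nonneg (by linarith)] at hkl
    have h1 := existsUnique_of_growth hc (by norm_num : (0 : ℝ) < 1 / 2) (fun x y hxy => by
      have a1 := abs_le.1 (e1 x y hxy)
      have a2 := abs_le.1 (e2 x y hxy)
      nlinarith [mul_le_mul_of_nonneg_right hkl' (sub_nonneg.2 hxy.le)])
    obtain ⟨x, hx, hu⟩ := h1
    refine ⟨x, sub_eq_zero.1 hx, fun y hy => hu y (sub_eq_zero.2 hy)⟩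
  · have hkl' : 1 ≤ l - k := by
      rw [abs_sub_comm, abs_of_nonneg (by linarith)] at hkl
      exact hkl
    have hc' : Continuous fun x => (l * x + γ + χ x) - (k * x + β + ψ x) := by
      have := hψ.continuous
      have := hχ.continuous
      fun_prop
    have h1 := existsUnique_of_growth hc' (by norm_num : (0 : ℝ) < 1 / 2) (fun x y hxy => by
      have a1 := abs_le.1 (e1 x y hxy)
      have a2 := abs_le.1 (e2 x y hxy)
      nlinarith [mul_le_mul_of_nonneg_right hkl' (sub_nonneg.2 hxy.le)])
    obtain ⟨x, hx, hu⟩ := h1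
    refine ⟨x, (sub_eq_zero.1 hx).symm, fun y hy => hu y (sub_eq_zero.2 (Eq.symm hy))⟩

end Pool.Agent.H54.GC
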