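import Pool.Agent.H54.GC.Gen

/-!
# The grid construction

`N ^ 3` steep lines, `2 N ^ 3` sites with two curves touching at the site, `r` further lines.
-/

set_option autoImplicit false

namespace Pool.Agent.H54.GC

/-- steep lines -/
abbrev Line (N : ℕ) : Type := Fin N × Fin (N ^ 2)
/-- sites -/
abbrev Site (N : ℕ) : Type := Fin N × Fin (2 * N ^ 2)
/-- all curves -/
abbrev Curve (N r : ℕ) : Type := Line N ⊕ ((Site N × Bool) ⊕ Fin r)
/-- the two curves of a site form one item -/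
abbrev Item (N r : ℕ) : Type := Line N ⊕ (Site N ⊕ Fin r)

/-- the item of a curve -/
def item {N r : ℕ} : Curve N r → Item N r
  | Sum.inl l => Sum.inl l
  | Sum.inr (Sum.inl p) => Sum.inr (Sum.inl p.1)
  | Sum.inr (Sum.inr j) => Sum.inr (Sum.inr j)

/-- the slope of an item -/
def slope {N r : ℕ} : Item N r → ℤ
  | Sum.inl l => (l.2.val : ℤ) - (N : ℤ) ^ 2 * l.1.val
  | Sum.inr (Sum.inl p) => -((N : ℤ) ^ 2 * N) - 1 - (p.1.val * (2 * (N : ℤ) ^ 2) + p.2.val)
  | Sum.inr (Sum.inr j) => (N : ℤ) ^ 2 + 1 + j.val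

theorem divmod_unique {K a b c d : ℤ} (hK : 0 < K) (hb : 0 ≤ b) (hbK : b < K) (hd : 0 ≤ d)
    (hdK : d < K) (h : K * a + b = K * c + d) : a = c ∧ b = d := by
  have h1 : a = c := by
    by_contra hne
    rcases lt_or_gt_of_ne hne with h2 | h2
    · nlinarith
    · nlinarith
  subst h1
  exact ⟨rfl, by linarith⟩

theorem slope_line_bounds {N : ℕ} (l : Line N) (r : ℕ) :
    -((N : ℤ) ^ 2 * N) ≤ slope (N := N) (r := r) (Sum.inl l) ∧
      slope (N := N) (r := r) (Sum.inl l) < (N : ℤ) ^ 2 := by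
  have h1 : (l.1.val : ℤ) ≤ N := by exact_mod_cast l.1.isLt.le
  have h2 : (l.2.val : ℤ) < (N : ℤ) ^ 2 := by exact_mod_cast l.2.isLt
  have h3 : (0 : ℤ) ≤ l.1.val := by positivity
  have h4 : (0 : ℤ) ≤ l.2.val := by positivity
  have h5 : (0 : ℤ) ≤ (N : ℤ) ^ 2 := by positivity
  constructor
  · show -((N : ℤ) ^ 2 * N) ≤ (l.2.val : ℤ) - (N : ℤ) ^ 2 * l.1.val
    nlinarith
  · show (l.2.val : ℤ) - (N : ℤ) ^ 2 * l.1.val < (N : ℤ) ^ 2
    nlinarith

theorem slope_injective {N r : ℕ} (hN : 1 ≤ N) :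
    Function.Injective (slope (N := N) (r := r)) := by
  have hK : (0 : ℤ) < (N : ℤ) ^ 2 := by positivity
  have e1 : ∀ (l : Line N) (p : Site N), slope (r := r) (Sum.inl l) ≠
      slope (N := N) (r := r) (Sum.inr (Sum.inl p)) := by
    intro l p h
    have h1 := (slope_line_bounds l r).1
    rw [h] at h1
    have h3 : (0 : ℤ) ≤ p.1.val * (2 * (N : ℤ) ^ 2) + p.2.val := by positivity
    have h4 : slope (N := N) (r := r) (Sum.inr (Sum.inl p)) =
      -((N : ℤ) ^ 2 * N) - 1 - (p.1.val * (2 * (N : ℤ) ^ 2) + p.2.val) := rfl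
    rw [h4] at h1
    linarith
  have e2 : ∀ (l : Line N) (j : Fin r), slope (r := r) (Sum.inl l) ≠
      slope (N := N) (r := r) (Sum.inr (Sum.inr j)) := by
    intro l j h
    have h1 := (slope_line_bounds l r).2
    rw [h] at h1
    have h4 : slope (N := N) (r := r) (Sum.inr (Sum.inr j)) = (N : ℤ) ^ 2 + 1 + j.val := rfl
    rw [h4] at h1
    have h5 : (0 : ℤ) ≤ j.val := by positivity
    linarith
  have e3 : ∀ (p : Site N) (j : Fin r), slope (r := r) (Sum.inr (Sum.inl p)) ≠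
      slope (N := N) (r := r) (Sum.inr (Sum.inr j)) := by
    intro p j h
    have h3 : slope (N := N) (r := r) (Sum.inr (Sum.inl p)) =
      -((N : ℤ) ^ 2 * N) - 1 - (p.1.val * (2 * (N : ℤ) ^ 2) + p.2.val) := rfl
    have h4 : slope (N := N) (r := r) (Sum.inr (Sum.inr j)) = (N : ℤ) ^ 2 + 1 + j.val := rfl
    rw [h3, h4] at h
    have h5 : (0 : ℤ) ≤ j.val := by positivity
    have h6 : (0 : ℤ) ≤ p.1.val * (2 * (N : ℤ) ^ 2) + p.2.val := by positivity
    have h7 : (0 : ℤ) ≤ (N : ℤ) ^ 2 * N := by positivity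
    linarith
  rintro (l | (p | i)) (l' | (p' | i')) h
  · have h' : (l.2.val : ℤ) - (N : ℤ) ^ 2 * l.1.val =
        (l'.2.val : ℤ) - (N : ℤ) ^ 2 * l'.1.val := h
    have h2 : (l.2.val : ℤ) < (N : ℤ) ^ 2 := by exact_mod_cast l.2.isLt
    have h2' : (l'.2.val : ℤ) < (N : ℤ) ^ 2 := by exact_mod_cast l'.2.isLt
    obtain ⟨a1, a2⟩ := divmod_unique (a := (l'.1.val : ℤ)) (c := (l.1.val : ℤ)) hK
      (Int.natCast_nonneg l.2.val) h2 (Int.natCast_nonneg l'.2.val) h2' (by linarith)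
    have b1 : l.1 = l'.1 := Fin.ext (by exact_mod_cast a1.symm)
    have b2 : l.2 = l'.2 := Fin.ext (by exact_mod_cast a2)
    rw [Prod.ext b1 b2]
  · exact absurd h (e1 l p')
  · exact absurd h (e2 l i')
  · exact absurd h.symm (e1 l' p)
  · have h' : -((N : ℤ) ^ 2 * N) - 1 - (p.1.val * (2 * (N : ℤ) ^ 2) + p.2.val) =
        -((N : ℤ) ^ 2 * N) - 1 - (p'.1.val * (2 * (N : ℤ) ^ 2) + p'.2.val) := h
    have h2 : (p.2.val : ℤ) < 2 * (N : ℤ) ^ 2 := by exact_mod_cast p.2.isLt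
    have h2' : (p'.2.val : ℤ) < 2 * (N : ℤ) ^ 2 := by exact_mod_cast p'.2.isLt
    obtain ⟨a1, a2⟩ := divmod_unique (a := (p.1.val : ℤ)) (c := (p'.1.val : ℤ))
      (by positivity : (0 : ℤ) < 2 * (N : ℤ) ^ 2)
      (Int.natCast_nonneg p.2.val) h2 (Int.natCast_nonneg p'.2.val) h2' (by linarith)
    have b1 : p.1 = p'.1 := Fin.ext (by exact_mod_cast a1)
    have b2 : p.2 = p'.2 := Fin.ext (by exact_mod_cast a2)
    rw [Prod.ext b1 b2]
  · exact absurd h (e3 p i')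
  · exact absurd h.symm (e2 l' i)
  · exact absurd h.symm (e3 p' i)
  · have h' : (N : ℤ) ^ 2 + 1 + i.val = (N : ℤ) ^ 2 + 1 + i'.val := h
    have b1 : i = i' := Fin.ext (by exact_mod_cast (by linarith : (i.val : ℤ) = i'.val))
    rw [b1]

theorem slope_dist {N r : ℕ} (hN : 1 ≤ N) {i j : Item N r} (hij : i ≠ j) :
    1 ≤ |(slope i : ℝ) - (slope j : ℝ)| := by
  have h1 : slope i - slope j ≠ 0 := sub_ne_zero.2 fun h => hij (slope_injective hN h)
  have h2 : 1 ≤ |slope i - slope j| := Int.one_le_abs h1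
  exact_mod_cast h2

/-- the position of a column -/
noncomputable def col {N : ℕ} (a : Fin N) : ℝ := 1 / ((a.val : ℝ) + (N : ℝ) ^ 2)

theorem col_pos_den {N : ℕ} (hN : 1 ≤ N) (a : Fin N) : (0 : ℝ) < (a.val : ℝ) + (N : ℝ) ^ 2 := by
  have : (0 : ℝ) < (N : ℝ) ^ 2 := by positivity
  positivity

theorem col_dist {N : ℕ} (hN : 1 ≤ N) {a b : Fin N} (hab : a ≠ b) :
    1 / (4 * ((N : ℝ) ^ 2) ^ 2) ≤ |col a - col b| := by
  have hK : (0 : ℝ) < (N : ℝ) ^ 2 := by positivity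
  have ha := col_pos_den hN a
  have hb := col_pos_den hN b
  have hNr : (1 : ℝ) ≤ N := by exact_mod_cast hN
  have ha2 : (a.val : ℝ) + (N : ℝ) ^ 2 ≤ 2 * (N : ℝ) ^ 2 := by
    have : (a.val : ℝ) ≤ N := by exact_mod_cast a.isLt.le
    nlinarith
  have hb2 : (b.val : ℝ) + (N : ℝ) ^ 2 ≤ 2 * (N : ℝ) ^ 2 := by
    have : (b.val : ℝ) ≤ N := by exact_mod_cast b.isLt.le
    nlinarith
  have h1 : col a - col b = ((b.val : ℝ) - a.val) /
      (((a.val : ℝ) + (N : ℝ) ^ 2) * ((b.val : ℝ) + (N : ℝ) ^ 2)) := by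
    unfold col
    rw [div_sub_div _ _ ha.ne' hb.ne']
    congr 1
    ring
  rw [h1, abs_div, abs_of_pos (mul_pos ha hb)]
  have h2 : (1 : ℝ) ≤ |(b.val : ℝ) - a.val| := by
    have h3 : (b.val : ℤ) - a.val ≠ 0 := by
      intro h
      exact hab (Fin.ext (by omega))
    have h4 := Int.one_le_abs h3
    exact_mod_cast h4
  rw [div_le_div_iff₀ (by positivity) (mul_pos ha hb)]
  have h5 : ((a.val : ℝ) + (N : ℝ) ^ 2) * ((b.val : ℝ) + (N : ℝ) ^ 2) ≤
      (2 * (N : ℝ) ^ 2) * (2 * (N : ℝ) ^ 2) := mul_le_mul ha2 hb2 hb.le (by positivity)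
  have h6 : 1 * (4 * ((N : ℝ) ^ 2) ^ 2) ≤ |(b.val : ℝ) - a.val| * (4 * ((N : ℝ) ^ 2) ^ 2) :=
    mul_le_mul_of_nonneg_right h2 (by positivity)
  nlinarith

/-- the height of the perturbations of the steep lines -/
noncomputable def del (N : ℕ) : ℝ := 1 / (32 * ((N : ℝ) ^ 2) ^ 2)

theorem del_pos {N : ℕ} (hN : 1 ≤ N) : 0 < del N := by
  unfold del
  positivity

theorem exists_bump {N : ℕ} (hN : 1 ≤ N) (w : Fin N → Bool) :
    ∃ ψ : ℝ → ℝ, LipschitzWith (1 / 4) ψ ∧ ∀ a, ψ (col a) = if w a then del N else -del N := by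
  classical
  have hinj : ∀ a b : Fin N, col a = col b → a = b := by
    intro a b h
    by_contra hne
    have h1 := col_dist hN hne
    rw [h, sub_self, abs_zero] at h1
    have : (0 : ℝ) < 1 / (4 * ((N : ℝ) ^ 2) ^ 2) := by positivity
    linarith
  let g : ℝ → ℝ := fun y => if ∃ a : Fin N, col a = y ∧ w a = true then del N else -del N
  have hg : ∀ a, g (col a) = if w a then del N else -del N := by
    intro a
    show (if ∃ b : Fin N, col b = col a ∧ w b = true then del N else -del N) = _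
    by_cases h : w a = true
    · rw [if_pos ⟨a, rfl, h⟩, if_pos h]
    · rw [if_neg, if_neg h]
      rintro ⟨b, hb, hwb⟩
      rw [hinj b a hb] at hwb
      exact h hwb
  have hl : LipschitzOnWith (1 / 4) g (Set.range (col (N := N))) := by
    refine LipschitzOnWith.of_dist_le_mul ?_
    rintro _ ⟨a, rfl⟩ _ ⟨b, rfl⟩
    by_cases hab : a = b
    · rw [hab]
      simp
    · have h1 := col_dist hN hab
      have h2 : |g (col a) - g (col b)| ≤ 2 * del N := by
        have hd := del_pos hN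
        rw [hg, hg]
        split_ifs <;> rw [abs_le] <;> constructor <;> linarith
      have h3 : 2 * del N = 1 / 4 * (1 / (4 * ((N : ℝ) ^ 2) ^ 2)) := by
        unfold del
        field_simp
        norm_num
      rw [Real.dist_eq, Real.dist_eq]
      have h4 : (((1 / 4 : NNReal)) : ℝ) = 1 / 4 := by norm_num
      rw [h4]
      linarith
  obtain ⟨ψ, h1, h2⟩ := hl.extend_real
  refine ⟨ψ, h1, fun a => ?_⟩
  rw [← h2 ⟨a, rfl⟩, hg]

end Pool.Agent.H54.GC
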