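import Pool.Agent.H54.GC.Low

/-!
# The lower bound `2 ^ (N ^ 4) ≤ g(5 N ^ 3 + r)`
-/

set_option autoImplicit false

namespace Pool.Agent.H54.GC

/-- the constant term of a curve -/
noncomputable def bet {N r : ℕ} : Curve N r → ℝ
  | Sum.inl l => l.1.val
  | Sum.inr (Sum.inl p) => (p.1.2.val : ℝ) / ((p.1.1.val : ℝ) + (N : ℝ) ^ 2) -
      (slope (N := N) (r := r) (Sum.inr (Sum.inl p.1)) : ℝ) * col p.1.1
  | Sum.inr (Sum.inr _) => 0

/-- the perturbation of a curve -/
noncomputable def per {N r : ℕ} (ψ : Line N → ℝ → ℝ) : Curve N r → ℝ → ℝ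
  | Sum.inl l => ψ l
  | Sum.inr (Sum.inl p) => fun x => (if p.2 then 1 else -1) * (|x - col p.1.1| / 4)
  | Sum.inr (Sum.inr _) => fun _ => 0

/-- the curves without offset -/
noncomputable def base {N r : ℕ} (ψ : Line N → ℝ → ℝ) (c : Curve N r) (x : ℝ) : ℝ :=
  (slope (item c) : ℝ) * x + bet c + per ψ c x

theorem per_lip {N r : ℕ} (ψ : Line N → ℝ → ℝ) (hψ : ∀ l, LipschitzWith (1 / 4) (ψ l))
    (c : Curve N r) : LipschitzWith (1 / 4) (per ψ c) := by
  rcases c with l | (p | j)
  · exact hψ l
  · refine LipschitzWith.of_dist_le_mul fun x y => ?_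
    show dist ((if p.2 then (1 : ℝ) else -1) * (|x - col p.1.1| / 4))
      ((if p.2 then (1 : ℝ) else -1) * (|y - col p.1.1| / 4)) ≤ _
    rw [Real.dist_eq, Real.dist_eq, ← mul_sub, abs_mul]
    have h1 : |if p.2 = true then (1 : ℝ) else -1| = 1 := by split_ifs <;> simp
    have h4 : (((1 / 4 : NNReal)) : ℝ) = 1 / 4 := by norm_num
    rw [h1, one_mul, h4, ← sub_div, abs_div]
    have h2 := abs_abs_sub_abs_le_abs_sub (x - col p.1.1) (y - col p.1.1)
    have h3 : x - col p.1.1 - (y - col p.1.1) = x - y := by ring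
    rw [h3] at h2
    have h5 : |(4 : ℝ)| = 4 := by norm_num
    rw [h5]
    linarith
  · exact (LipschitzWith.const (0 : ℝ)).weaken (by positivity)

theorem base_cont {N r : ℕ} (ψ : Line N → ℝ → ℝ) (hψ : ∀ l, LipschitzWith (1 / 4) (ψ l))
    (c : Curve N r) : Continuous (base ψ c) := by
  unfold base
  have := (per_lip ψ hψ c).continuous
  fun_prop

/-- the two curves of a site -/
theorem base_site {N r : ℕ} (ψ : Line N → ℝ → ℝ) (p : Site N) (x : ℝ) :
    base (r := r) ψ (Sum.inr (Sum.inl (p, true))) x -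
      base (r := r) ψ (Sum.inr (Sum.inl (p, false))) x = |x - col p.1| / 2 := by
  unfold base bet per item
  simp only [if_true]
  norm_num
  ring

theorem same_item {N r : ℕ} {c d : Curve N r} (hcd : c ≠ d) (h : item c = item d) :
    ∃ (p : Site N) (σ : Bool), c = Sum.inr (Sum.inl (p, σ)) ∧ d = Sum.inr (Sum.inl (p, !σ)) := by
  rcases c with l | (⟨p, σ⟩ | j) <;> rcases d with l' | (⟨p', σ'⟩ | j') <;>
    simp only [item, Sum.inl.injEq, Sum.inr.injEq, reduceCtorEq] at h
  · exact absurd (by rw [h]) hcd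
  · subst h
    refine ⟨p, σ, rfl, ?_⟩
    have h1 : σ ≠ σ' := fun h => hcd (by rw [h])
    have h2 : σ' = !σ := by cases σ <;> cases σ' <;> simp_all
    rw [h2]
  · exact absurd (by rw [h]) hcd

theorem hitem {N r : ℕ} (c d e : Curve N r) (hcd : c ≠ d) (hde : d ≠ e) (hce : c ≠ e)
    (h1 : item c = item d) : item d ≠ item e := by
  intro h2
  obtain ⟨p, σ, h3, h4⟩ := same_item hcd h1
  obtain ⟨q, ρ, h5, h6⟩ := same_item hde h2
  rw [h4] at h5
  simp only [Sum.inr.injEq, Sum.inl.injEq, Prod.mk.injEq] at h5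
  refine hce ?_
  rw [h3, h6, ← h5.1, ← h5.2]
  simp

theorem hpair {N r : ℕ} (hN : 1 ≤ N) (ψ : Line N → ℝ → ℝ)
    (hψ : ∀ l, LipschitzWith (1 / 4) (ψ l)) (τ : Item N r → ℝ) (c d : Curve N r) (hcd : c ≠ d) :
    ∃! x, base ψ c x + τ (item c) = base ψ d x + τ (item d) := by
  by_cases h : item c = item d
  · obtain ⟨p, σ, h1, h2⟩ := same_item hcd h
    have key : ∀ x, base ψ c x + τ (item c) = base ψ d x + τ (item d) ↔ x = col p.1 := by
      intro x
      rw [h]
      have e1 := base_site (r := r) ψ p x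
      have e2 : |x - col p.1| / 2 = 0 ↔ x = col p.1 := by
        rw [div_eq_zero_iff, abs_eq_zero, sub_eq_zero]
        norm_num
      rw [← e2, ← e1, h1, h2]
      cases σ
      · simp only [Bool.not_false]
        constructor <;> intro h <;> linarith
      · simp only [Bool.not_true]
        constructor <;> intro h <;> linarith
    exact ⟨col p.1, (key _).2 rfl, fun y hy => (key y).1 hy⟩
  · have h1 := existsUnique_slope (β := bet c + τ (item c)) (γ := bet d + τ (item d))
      (per_lip ψ hψ c) (per_lip ψ hψ d) (slope_dist hN h)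
    obtain ⟨x, hx, hu⟩ := h1
    refine ⟨x, ?_, fun y hy => hu y ?_⟩
    · simp only at hx ⊢
      unfold base
      linarith
    · simp only at hy ⊢
      unfold base at hy
      linarith

/-- the steep lines grow faster than the curves of the sites -/
theorem grow {N r : ℕ} (hN : 1 ≤ N) (ψ : Line N → ℝ → ℝ)
    (hψ : ∀ l, LipschitzWith (1 / 4) (ψ l)) (l : Line N) (p : Site N) (σ : Bool) {x y : ℝ}
    (hxy : x < y) :
    base (r := r) ψ (Sum.inl l) x - base (r := r) ψ (Sum.inr (Sum.inl (p, σ))) x <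
      base (r := r) ψ (Sum.inl l) y - base (r := r) ψ (Sum.inr (Sum.inl (p, σ))) y := by
  have h1 := (per_lip (r := r) ψ hψ (Sum.inl l)).dist_le_mul y x
  have h2 := (per_lip (r := r) ψ hψ (Sum.inr (Sum.inl (p, σ)))).dist_le_mul y x
  have h4 : (((1 / 4 : NNReal)) : ℝ) = 1 / 4 := by norm_num
  rw [Real.dist_eq, Real.dist_eq, abs_of_pos (sub_pos.2 hxy), h4] at h1 h2
  have h3 : (slope (N := N) (r := r) (Sum.inr (Sum.inl p)) : ℝ) + 1 ≤
      (slope (N := N) (r := r) (Sum.inl l) : ℝ) := by
    have a1 := (slope_line_bounds l r).1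
    have a2 : slope (N := N) (r := r) (Sum.inr (Sum.inl p)) =
      -((N : ℤ) ^ 2 * N) - 1 - (p.1.val * (2 * (N : ℤ) ^ 2) + p.2.val) := rfl
    have a3 : (0 : ℤ) ≤ p.1.val * (2 * (N : ℤ) ^ 2) + p.2.val := by positivity
    have a4 : slope (N := N) (r := r) (Sum.inr (Sum.inl p)) + 1 ≤
        slope (N := N) (r := r) (Sum.inl l) := by
      rw [a2]
      linarith
    exact_mod_cast a4
  unfold base
  show (slope (N := N) (r := r) (Sum.inl l) : ℝ) * x + bet (N := N) (r := r) (Sum.inl l) +
      per (r := r) ψ (Sum.inl l) x -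
      ((slope (N := N) (r := r) (Sum.inr (Sum.inl p)) : ℝ) * x +
        bet (N := N) (r := r) (Sum.inr (Sum.inl (p, σ))) +
        per (r := r) ψ (Sum.inr (Sum.inl (p, σ))) x) <
      (slope (N := N) (r := r) (Sum.inl l) : ℝ) * y + bet (N := N) (r := r) (Sum.inl l) +
      per (r := r) ψ (Sum.inl l) y -
      ((slope (N := N) (r := r) (Sum.inr (Sum.inl p)) : ℝ) * y +
        bet (N := N) (r := r) (Sum.inr (Sum.inl (p, σ))) +
        per (r := r) ψ (Sum.inr (Sum.inl (p, σ))) y)
  have h5 := abs_le.1 h1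
  have h6 := abs_le.1 h2
  nlinarith [mul_le_mul_of_nonneg_right h3 (sub_nonneg.2 hxy.le)]

/-- the site on a line in a column -/
def siteOf {N : ℕ} (l : Line N) (a : Fin N) : Site N :=
  (a, ⟨l.1.val * a.val + l.2.val, by
    have h1 := l.1.isLt
    have h2 := a.isLt
    have h3 := l.2.isLt
    have h4 : l.1.val * a.val ≤ N * N := Nat.mul_le_mul h1.le h2.le
    nlinarith⟩)

theorem at_site {N r : ℕ} (hN : 1 ≤ N) (ψ : Line N → ℝ → ℝ) (l : Line N) (a : Fin N) (σ : Bool) :
    base (r := r) ψ (Sum.inl l) (col a) -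
      base (r := r) ψ (Sum.inr (Sum.inl (siteOf l a, σ))) (col a) = ψ l (col a) := by
  have ha := col_pos_den hN a
  have e1 : slope (N := N) (r := r) (Sum.inl l) = (l.2.val : ℤ) - (N : ℤ) ^ 2 * l.1.val := rfl
  have e2 : per (r := r) ψ (Sum.inr (Sum.inl (siteOf l a, σ))) (col a) = 0 := by
    show (if σ then (1 : ℝ) else -1) * (|col a - col a| / 4) = 0
    simp
  have e3 : ((siteOf l a).2.val : ℝ) = (l.1.val : ℝ) * a.val + l.2.val := by
    show (((l.1.val * a.val + l.2.val : ℕ)) : ℝ) = _
    push_cast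
    rfl
  unfold base
  rw [e2]
  show (slope (N := N) (r := r) (Sum.inl l) : ℝ) * col a + (l.1.val : ℝ) + ψ l (col a) -
    ((slope (N := N) (r := r) (Sum.inr (Sum.inl (siteOf l a))) : ℝ) * col a +
      (((siteOf l a).2.val : ℝ) / ((a.val : ℝ) + (N : ℝ) ^ 2) -
      (slope (N := N) (r := r) (Sum.inr (Sum.inl (siteOf l a))) : ℝ) * col a) + 0) = ψ l (col a)
  rw [e3, e1]
  push_cast
  have e4 : ((l.2.val : ℝ) - (N : ℝ) ^ 2 * l.1.val) * col a + l.1.val =
      ((l.1.val : ℝ) * a.val + l.2.val) / ((a.val : ℝ) + (N : ℝ) ^ 2) := by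
    unfold col
    field_simp
    ring
  rw [← e4]
  ring

/-- For every choice of bits there is an orientation from which the bits can be read off. -/
theorem exists_chi {N r : ℕ} (hN : 1 ≤ N) (n : ℕ) (e : Curve N r ≃ Fin n)
    (w : Line N → Fin N → Bool) :
    ∃ χ : Fin n → Fin n → Fin n → SignType, IsGCTO χ ∧ ∀ l a,
      χ (e (Sum.inl l)) (e (Sum.inr (Sum.inl (siteOf l a, true))))
        (e (Sum.inr (Sum.inl (siteOf l a, false)))) = if w l a then -1 else 1 := by
  classical
  have hb := fun l => exists_bump hN (w l)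
  choose ψ hψ hψw using hb
  have hδ := del_pos hN
  obtain ⟨τ, hτ, hgen⟩ := exists_offset item (base ψ) (hpair (r := r) hN ψ hψ) hitem
    (del N) hδ
  set F : Curve N r → ℝ → ℝ := fun c x => base ψ c x + τ (item c) with hF
  have hFp : ∀ c d, c ≠ d → ∃! x, F c x = F d x := fun c d hcd => hpair hN ψ hψ τ c d hcd
  have hz : ∃ z : Curve N r → Curve N r → ℝ, (∀ c d, z c d = z d c) ∧
      (∀ c d, c ≠ d → F c (z c d) = F d (z c d)) ∧
      ∀ c d, c ≠ d → ∀ y, F c y = F d y → y = z c d := by
    have hz0 : ∀ c d : Curve N r, ∃ x : ℝ, c ≠ d → (F c x = F d x ∧ ∀ y, F c y = F d y → y = x) := by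
      intro c d
      by_cases hcd : c = d
      · exact ⟨0, fun h => absurd hcd h⟩
      · obtain ⟨x, hx, hu⟩ := hFp c d hcd
        exact ⟨x, fun _ => ⟨hx, hu⟩⟩
    choose z0 hz0 using hz0
    refine ⟨fun c d => if c = d then 0 else z0 c d, ?_, ?_, ?_⟩
    · intro c d
      by_cases hcd : c = d
      · rw [hcd]
      · simp only [if_neg hcd, if_neg (Ne.symm hcd)]
        exact (hz0 d c (Ne.symm hcd)).2 _ (hz0 c d hcd).1.symm
    · intro c d hcd
      simp only [if_neg hcd]
      exact (hz0 c d hcd).1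
    · intro c d hcd
      simp only [if_neg hcd]
      exact (hz0 c d hcd).2
  obtain ⟨z, hzs, hz1, hz2⟩ := hz
  obtain ⟨χ, h1, hrot, h3, h4⟩ := system (n := n) (fun i => F (e.symm i))
    (fun i => (base_cont ψ hψ (e.symm i)).add continuous_const)
    (fun i j => z (e.symm i) (e.symm j)) (fun i j => hzs _ _)
    (fun i j hij => hz1 _ _ fun h => hij (e.symm.injective h))
    (fun i j hij => hz2 _ _ fun h => hij (e.symm.injective h))
    (by
      intro i j k hij hjk hik h
      have a1 : e.symm i ≠ e.symm j := fun h => hij (e.symm.injective h)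
      have a2 : e.symm j ≠ e.symm k := fun h => hjk (e.symm.injective h)
      have a3 : e.symm i ≠ e.symm k := fun h => hik (e.symm.injective h)
      refine hgen _ _ _ a1 a2 a3 (z (e.symm i) (e.symm j)) ⟨hz1 _ _ a1, ?_⟩
      have := hz1 _ _ a2
      rw [← h] at this
      exact this)
  refine ⟨χ, h1, fun l a => ?_⟩
  set p := siteOf l a with hp
  set cl : Curve N r := Sum.inl l with hcl
  set cU : Curve N r := Sum.inr (Sum.inl (p, true)) with hcU
  set cL : Curve N r := Sum.inr (Sum.inl (p, false)) with hcL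
  have n1 : cl ≠ cU := by rw [hcl, hcU]; simp
  have n2 : cU ≠ cL := by rw [hcU, hcL]; simp
  have n3 : cl ≠ cL := by rw [hcl, hcL]; simp
  have hpa : p.1 = a := rfl
  -- differences
  have dUL : ∀ x, F cU x - F cL x = |x - col a| / 2 := by
    intro x
    have := base_site (r := r) ψ p x
    rw [hpa] at this
    have e2 : item cU = item cL := rfl
    show base ψ cU x + τ (item cU) - (base ψ cL x + τ (item cL)) = _
    rw [e2]
    linarith
  have mU : ∀ x y, x < y → F cl x - F cU x < F cl y - F cU y := by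
    intro x y hxy
    have := grow (r := r) hN ψ hψ l p true hxy
    show base ψ cl x + τ (item cl) - (base ψ cU x + τ (item cU)) <
      base ψ cl y + τ (item cl) - (base ψ cU y + τ (item cU))
    linarith
  have mL : ∀ x y, x < y → F cl x - F cL x < F cl y - F cL y := by
    intro x y hxy
    have := grow (r := r) hN ψ hψ l p false hxy
    show base ψ cl x + τ (item cl) - (base ψ cL x + τ (item cL)) <
      base ψ cl y + τ (item cl) - (base ψ cL y + τ (item cL))
    linarith
  have zUL : z cU cL = col a := by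
    have e1 := hz1 cU cL n2
    have e2 := dUL (z cU cL)
    rw [e1, sub_self] at e2
    have e3 : |z cU cL - col a| = 0 := by linarith
    exact sub_eq_zero.1 (abs_eq_zero.1 e3)
  have hzlU := hz1 cl cU n1
  have hzlL := hz1 cl cL n3
  have gl := hτ (item cl)
  have gU := hτ (item cU)
  have gL := hτ (item cL)
  have hcolU : F cl (col a) - F cU (col a) = ψ l (col a) + (τ (item cl) - τ (item cU)) := by
    have := at_site (r := r) hN ψ l a true
    show base ψ cl (col a) + τ (item cl) - (base ψ cU (col a) + τ (item cU)) = _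
    linarith
  have hcolL : F cl (col a) - F cL (col a) = ψ l (col a) + (τ (item cl) - τ (item cL)) := by
    have := at_site (r := r) hN ψ l a false
    show base ψ cl (col a) + τ (item cl) - (base ψ cL (col a) + τ (item cL)) = _
    linarith
  have hes : ∀ c : Curve N r, e.symm (e c) = c := fun c => e.symm_apply_apply c
  have ne1 : e cl ≠ e cU := fun h => n1 (e.injective h)
  have ne2 : e cU ≠ e cL := fun h => n2 (e.injective h)
  have ne3 : e cl ≠ e cL := fun h => n3 (e.injective h)
  by_cases hw : w l a = true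
  · rw [if_pos hw]
    have hψa : ψ l (col a) = del N := by rw [hψw, if_pos hw]
    have b1 : z cl cU < col a := by
      by_contra hcon
      push Not at hcon
      have : F cl (col a) - F cU (col a) ≤ F cl (z cl cU) - F cU (z cl cU) := by
        rcases hcon.eq_or_lt with h | h
        · rw [h]
        · exact (mU _ _ h).le
      rw [hcolU, hzlU, sub_self, hψa] at this
      linarith
    have b2 : 0 < F cU (z cl cU) - F cL (z cl cU) := by
      rw [dUL]
      have : 0 < |z cl cU - col a| := abs_pos.2 (by intro h; linarith)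
      linarith
    have b3 : z cl cL < z cl cU := by
      by_contra hcon
      push Not at hcon
      have : F cl (z cl cU) - F cL (z cl cU) ≤ F cl (z cl cL) - F cL (z cl cL) := by
        rcases hcon.eq_or_lt with h | h
        · rw [h]
        · exact (mL _ _ h).le
      rw [hzlL, sub_self, hzlU] at this
      linarith
    refine h3 (e cl) (e cU) (e cL) ne1 ne2 ne3 ?_ ?_ ?_
    · simp only [hes]
      rw [hzs cL cl]
      exact b3
    · simp only [hes]
      rw [zUL]
      exact b1
    · simp only [hes]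
      rw [hzlU]
      linarith
  · rw [if_neg hw]
    have hψa : ψ l (col a) = -del N := by rw [hψw, if_neg hw]
    have b1 : col a < z cl cL := by
      by_contra hcon
      push Not at hcon
      have : F cl (z cl cL) - F cL (z cl cL) ≤ F cl (col a) - F cL (col a) := by
        rcases hcon.eq_or_lt with h | h
        · rw [h]
        · exact (mL _ _ h).le
      rw [hcolL, hzlL, sub_self, hψa] at this
      linarith
    have b2 : 0 < F cU (z cl cL) - F cL (z cl cL) := by
      rw [dUL]
      have : 0 < |z cl cL - col a| := abs_pos.2 (by intro h; linarith)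
      linarith
    have b3 : z cl cL < z cl cU := by
      by_contra hcon
      push Not at hcon
      have : F cl (z cl cU) - F cU (z cl cU) ≤ F cl (z cl cL) - F cU (z cl cL) := by
        rcases hcon.eq_or_lt with h | h
        · rw [h]
        · exact (mU _ _ h).le
      rw [hzlU, sub_self, hzlL] at this
      linarith
    rw [← hrot (e cL) (e cl) (e cU)]
    refine h4 (e cL) (e cl) (e cU) ne3.symm ne1 ne2.symm ?_ ?_ ?_
    · simp only [hes]
      rw [zUL, hzs cL cl]
      exact b1
    · simp only [hes]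
      rw [hzs cL cl]
      exact b3
    · simp only [hes]
      rw [hzs cL cl]
      linarith

theorem card_curve (N r : ℕ) : Fintype.card (Curve N r) = 5 * N ^ 3 + r := by
  simp only [Fintype.card_sum, Fintype.card_prod, Fintype.card_fin, Fintype.card_bool]
  ring

/-- the lower bound -/
theorem lower_nat {N : ℕ} (hN : 1 ≤ N) (r : ℕ) : 2 ^ N ^ 4 ≤ gcto (5 * N ^ 3 + r) := by
  classical
  let e : Curve N r ≃ Fin (5 * N ^ 3 + r) := Fintype.equivFinOfCardEq (card_curve N r)
  have h := fun w => exists_chi hN _ e w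
  choose χ h1 h2 using h
  let Φ : (Line N → Fin N → Bool) →
      {χ : Fin (5 * N ^ 3 + r) → Fin (5 * N ^ 3 + r) → Fin (5 * N ^ 3 + r) → SignType //
        IsGCTO χ} := fun w => ⟨χ w, h1 w⟩
  have hΦ : Function.Injective Φ := by
    intro w w' hww
    have h3 : χ w = χ w' := congrArg Subtype.val hww
    funext l a
    have h4 := h2 w l a
    have h5 := h2 w' l a
    rw [h3, h5] at h4
    by_cases e1 : w l a = true <;> by_cases e2 : w' l a = true
    · rw [e1, e2]
    · rw [if_pos e1, if_neg e2] at h4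
      exact absurd h4 (by decide)
    · rw [if_neg e1, if_pos e2] at h4
      exact absurd h4 (by decide)
    · rw [Bool.not_eq_true] at e1 e2
      rw [e1, e2]
  have h3 := Nat.card_le_card_of_injective Φ hΦ
  have h4 : Nat.card (Line N → Fin N → Bool) = 2 ^ N ^ 4 := by
    rw [Nat.card_eq_fintype_card]
    simp only [Fintype.card_fun, Fintype.card_prod, Fintype.card_fin, Fintype.card_bool]
    rw [← pow_mul]
    congr 1
    ring
  rw [h4] at h3
  exact h3

end Pool.Agent.H54.GC
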