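import Pool.Agent.H54.GC.Disc

/-!
# The orientation of a triple of polygonal paths
-/

set_option autoImplicit false

namespace Pool.Agent.H54.GC

open Finset

/-- the potential of the polygonal path `(X, Y)` -/
def phi (X Y : ℕ → ℝ) (k : ℕ) : ℝ := ∑ r ∈ range k, cross (X r, Y r) (X (r + 1), Y (r + 1))

/-- trapezoid sums -/
def trap (X D : ℕ → ℝ) (k : ℕ) : ℝ := ∑ r ∈ range k, (X (r + 1) - X r) * (D r + D (r + 1))

theorem phi_eq (X Y : ℕ → ℝ) (k : ℕ) : phi X Y k = X k * Y k - X 0 * Y 0 - trap X Y k := by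
  unfold phi trap
  induction k with
  | zero => simp
  | succ k ih =>
    rw [sum_range_succ, sum_range_succ, ih]
    unfold cross
    ring

theorem phi_succ (X Y : ℕ → ℝ) (k : ℕ) :
    phi X Y (k + 1) - phi X Y k = cross (X k, Y k) (X (k + 1), Y (k + 1)) := by
  unfold phi
  rw [sum_range_succ]
  ring

theorem trap_sub (X Y Z : ℕ → ℝ) (k : ℕ) :
    trap X Y k - trap X Z k = trap X (fun r => Y r - Z r) k := by
  unfold trap
  rw [← sum_sub_distrib]
  exact sum_congr rfl fun r _ => by ring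

theorem path_area (M : ℕ) (X : ℕ → ℝ) (hX : StrictMono X) (Y : ℕ → ℝ)
    {u v : Fin (M + 1)} (w : (pathTree M X hX Y).G.Walk u v) :
    (pathTree M X hX Y).area w = phi X Y v - phi X Y u := by
  refine area_eq (pathTree M X hX Y) (fun k => phi X Y k.val) ?_ w
  intro a b hab
  have hab' : a.val + 1 = b.val ∨ b.val + 1 = a.val := SimpleGraph.pathGraph_adj.1 hab
  show phi X Y b.val - phi X Y a.val = cross (X a.val, Y a.val) (X b.val, Y b.val)
  rcases hab' with h | h
  · rw [← h]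
    exact phi_succ X Y _
  · rw [← h, cross_antisymm, ← phi_succ X Y]
    ring

theorem OneZero.symm {M : ℕ} {Y Z : ℕ → ℝ} {κ : ℕ} (h : OneZero M (fun k => Y k - Z k) κ) :
    OneZero M (fun k => Z k - Y k) κ := by
  obtain ⟨h0, h1, h2, h3⟩ := h
  simp only at h1 h2 h3
  refine ⟨h0, ?_, fun k hk hne h => h2 k hk hne (by linarith), fun k hk => ?_⟩
  · show Z κ - Y κ = 0
    linarith
  · have := h3 k hk
    show 0 ≤ (Z k - Y k) * (Z (k + 1) - Y (k + 1))
    nlinarith

theorem same_sign_right {M : ℕ} {D : ℕ → ℝ} {κ : ℕ} (h : OneZero M D κ) :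
    ∀ d k : ℕ, κ < k → k + d ≤ M → 0 < D k * D (k + d) := by
  obtain ⟨h0, h1, h2, h3⟩ := h
  intro d
  induction d with
  | zero =>
    intro k hk hM
    have : D k ≠ 0 := h2 k (by omega) (by omega)
    exact mul_self_pos.2 this
  | succ d ih =>
    intro k hk hM
    have e1 := ih k hk (by omega)
    have e2 := h3 (k + d) (by omega)
    have e3 : D (k + d) ≠ 0 := h2 _ (by omega) (by omega)
    have e4 : D (k + d + 1) ≠ 0 := h2 _ (by omega) (by omega)
    have e5 : 0 < D (k + d) * D (k + d + 1) := lt_of_le_of_ne e2 (mul_ne_zero e3 e4).symm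
    have e6 : 0 < (D k * D (k + d)) * (D (k + d) * D (k + d + 1)) := mul_pos e1 e5
    have e7 : (D k * D (k + d)) * (D (k + d) * D (k + d + 1)) =
        (D k * D (k + d + 1)) * (D (k + d)) ^ 2 := by ring
    rw [e7] at e6
    exact (pos_iff_pos_of_mul_pos e6).2 (by positivity)

theorem same_sign_left {M : ℕ} {D : ℕ → ℝ} {κ : ℕ} (h : OneZero M D κ) :
    ∀ d k : ℕ, k + d < κ → 0 < D k * D (k + d) := by
  obtain ⟨h0, h1, h2, h3⟩ := h
  intro d
  induction d with
  | zero =>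
    intro k hk
    have : D k ≠ 0 := h2 k (by omega) (by omega)
    exact mul_self_pos.2 this
  | succ d ih =>
    intro k hk
    have e1 := ih k (by omega)
    have e2 := h3 (k + d) (by omega)
    have e3 : D (k + d) ≠ 0 := h2 _ (by omega) (by omega)
    have e4 : D (k + d + 1) ≠ 0 := h2 _ (by omega) (by omega)
    have e5 : 0 < D (k + d) * D (k + d + 1) := lt_of_le_of_ne e2 (mul_ne_zero e3 e4).symm
    have e6 : 0 < (D k * D (k + d)) * (D (k + d) * D (k + d + 1)) := mul_pos e1 e5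
    have e7 : (D k * D (k + d)) * (D (k + d) * D (k + d + 1)) =
        (D k * D (k + d + 1)) * (D (k + d)) ^ 2 := by ring
    rw [e7] at e6
    exact (pos_iff_pos_of_mul_pos e6).2 (by positivity)

theorem trap_Ico (X D : ℕ → ℝ) (a b : ℕ) (hab : a ≤ b) :
    trap X D b - trap X D a = ∑ r ∈ Ico a b, (X (r + 1) - X r) * (D r + D (r + 1)) := by
  unfold trap
  rw [range_eq_Ico, range_eq_Ico, ← sum_Ico_consecutive _ (Nat.zero_le a) hab]
  ring

/-- right of the zero -/
theorem trap_right {M : ℕ} {X D : ℕ → ℝ} (hX : StrictMono X) {κ e : ℕ} (h : OneZero M D κ)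
    (hκe : κ < e) (heM : e ≤ M) : 0 < (trap X D e - trap X D κ) * D e := by
  rw [trap_Ico X D κ e hκe.le, sum_mul]
  refine sum_pos (fun r hr => ?_) ⟨κ, by simp [hκe]⟩
  rw [mem_Ico] at hr
  have hx : 0 < X (r + 1) - X r := sub_pos.2 (hX (Nat.lt_succ_self r))
  have e1 : 0 < D (r + 1) * D e := by
    have := same_sign_right h (e - (r + 1)) (r + 1) (by omega) (by omega)
    rwa [show r + 1 + (e - (r + 1)) = e by omega] at this
  have e2 : 0 ≤ D r * D e := by
    rcases hr.1.eq_or_lt with h1 | h1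
    · rw [← h1, h.2.1, zero_mul]
    · have := same_sign_right h (e - r) r h1 (by omega)
      rw [show r + (e - r) = e by omega] at this
      exact this.le
  have e3 : (X (r + 1) - X r) * (D r + D (r + 1)) * D e =
      (X (r + 1) - X r) * (D r * D e + D (r + 1) * D e) := by ring
  rw [e3]
  positivity

/-- left of the zero -/
theorem trap_left {M : ℕ} {X D : ℕ → ℝ} (hX : StrictMono X) {κ e : ℕ} (h : OneZero M D κ)
    (hκe : e < κ) : 0 < (trap X D κ - trap X D e) * D e := by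
  rw [trap_Ico X D e κ hκe.le, sum_mul]
  refine sum_pos (fun r hr => ?_) ⟨e, by simp [hκe]⟩
  rw [mem_Ico] at hr
  have hx : 0 < X (r + 1) - X r := sub_pos.2 (hX (Nat.lt_succ_self r))
  have e1 : 0 < D e * D r := by
    have := same_sign_left h (r - e) e (by omega)
    rwa [show e + (r - e) = r by omega] at this
  have e2 : 0 ≤ D e * D (r + 1) := by
    rcases (Nat.succ_le_of_lt hr.2).eq_or_lt with h1 | h1
    · rw [show r + 1 = κ from h1, h.2.1, mul_zero]
    · have := same_sign_left h (r + 1 - e) e (by omega)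
      rw [show e + (r + 1 - e) = r + 1 by omega] at this
      exact this.le
  have e3 : (X (r + 1) - X r) * (D r + D (r + 1)) * D e =
      (X (r + 1) - X r) * (D e * D r + D e * D (r + 1)) := by ring
  rw [e3]
  positivity

/-- twice the signed area of the triangle of the paths `f`, `g`, `h` -/
noncomputable def tri (X Yf Yg Yh : ℕ → ℝ) (kfg kgh khf : ℕ) : ℝ :=
  (phi X Yf kfg - phi X Yf khf) + (phi X Yg kgh - phi X Yg kfg) + (phi X Yh khf - phi X Yh kgh)

theorem tri_rot (X Yf Yg Yh : ℕ → ℝ) (kfg kgh khf : ℕ) :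
    tri X Yf Yg Yh kfg kgh khf = tri X Yg Yh Yf kgh khf kfg := by
  unfold tri
  ring

theorem tri_eq (X Yf Yg Yh : ℕ → ℝ) (kfg kgh khf : ℕ) (h1 : Yf kfg = Yg kfg)
    (h2 : Yg kgh = Yh kgh) (h3 : Yh khf = Yf khf) :
    tri X Yf Yg Yh kfg kgh khf =
      -((trap X (fun r => Yf r - Yh r) kfg - trap X (fun r => Yf r - Yh r) khf) +
        (trap X (fun r => Yg r - Yh r) kgh - trap X (fun r => Yg r - Yh r) kfg)) := by
  unfold tri
  rw [phi_eq, phi_eq, phi_eq, phi_eq, phi_eq, phi_eq, h1, h2, h3, ← trap_sub, ← trap_sub,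
    ← trap_sub, ← trap_sub]
  ring

/-- the order `khf < kfg < kgh` -/
theorem tri_neg {M : ℕ} {X Yf Yg Yh : ℕ → ℝ} (hX : StrictMono X) {kfg kgh khf : ℕ}
    (h1 : OneZero M (fun k => Yf k - Yg k) kfg) (h2 : OneZero M (fun k => Yg k - Yh k) kgh)
    (h3 : OneZero M (fun k => Yh k - Yf k) khf) (ha : khf < kfg) (hb : kfg < kgh) :
    tri X Yf Yg Yh kfg kgh khf * (Yf kfg - Yh kfg) < 0 := by
  have e1 : Yf kfg = Yg kfg := sub_eq_zero.1 h1.2.1
  rw [tri_eq X Yf Yg Yh kfg kgh khf e1 (sub_eq_zero.1 h2.2.1)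
    (sub_eq_zero.1 h3.2.1)]
  have e2 := trap_right hX h3.symm ha h1.1
  have e3 := trap_left hX h2 hb
  rw [← e1] at e3
  nlinarith

/-- the order `kgh < kfg < khf` -/
theorem tri_pos {M : ℕ} {X Yf Yg Yh : ℕ → ℝ} (hX : StrictMono X) {kfg kgh khf : ℕ}
    (h1 : OneZero M (fun k => Yf k - Yg k) kfg) (h2 : OneZero M (fun k => Yg k - Yh k) kgh)
    (h3 : OneZero M (fun k => Yh k - Yf k) khf) (ha : kgh < kfg) (hb : kfg < khf) :
    0 < tri X Yf Yg Yh kfg kgh khf * (Yf kfg - Yh kfg) := by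
  have e1 : Yf kfg = Yg kfg := sub_eq_zero.1 h1.2.1
  rw [tri_eq X Yf Yg Yh kfg kgh khf e1 (sub_eq_zero.1 h2.2.1)
    (sub_eq_zero.1 h3.2.1)]
  have e2 := trap_right hX h2 ha h1.1
  have e3 := trap_left hX h3.symm hb
  rw [← e1] at e2
  nlinarith

theorem tri_ne {M : ℕ} {X Yf Yg Yh : ℕ → ℝ} (hX : StrictMono X) {kfg kgh khf : ℕ}
    (h1 : OneZero M (fun k => Yf k - Yg k) kfg) (h2 : OneZero M (fun k => Yg k - Yh k) kgh)
    (h3 : OneZero M (fun k => Yh k - Yf k) khf) (ha : kfg ≠ kgh) (hb : kgh ≠ khf)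
    (hc : kfg ≠ khf) : tri X Yf Yg Yh kfg kgh khf ≠ 0 := by
  intro h
  have h' : tri X Yg Yh Yf kgh khf kfg = 0 := by rw [← tri_rot]; exact h
  have h'' : tri X Yh Yf Yg khf kfg kgh = 0 := by rw [← tri_rot]; exact h'
  rcases lt_or_gt_of_ne ha with a | a <;> rcases lt_or_gt_of_ne hb with b | b <;>
    rcases lt_or_gt_of_ne hc with c | c
  · -- kfg < kgh < khf : middle kgh
    have := tri_neg hX h2 h3 h1 a b
    rw [h', zero_mul] at this
    exact lt_irrefl _ this
  · omega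
  · -- kfg < khf < kgh : middle khf
    have := tri_pos hX h3 h1 h2 c b
    rw [h'', zero_mul] at this
    exact lt_irrefl _ this
  · -- khf < kfg < kgh
    have := tri_neg hX h1 h2 h3 c a
    rw [h, zero_mul] at this
    exact lt_irrefl _ this
  · -- kgh < kfg < khf
    have := tri_pos hX h1 h2 h3 a c
    rw [h, zero_mul] at this
    exact lt_irrefl _ this
  · -- kgh < khf < kfg
    have := tri_neg hX h3 h1 h2 b c
    rw [h'', zero_mul] at this
    exact lt_irrefl _ this
  · omega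
  · -- khf < kgh < kfg
    have := tri_pos hX h2 h3 h1 b a
    rw [h', zero_mul] at this
    exact lt_irrefl _ this

/-- the orientation of a system of paths -/
noncomputable def chiOf {n : ℕ} (X : ℕ → ℝ) (Y : Fin n → ℕ → ℝ) (κ : Fin n → Fin n → ℕ)
    (i j k : Fin n) : SignType :=
  if i = j ∨ j = k ∨ i = k then 0
  else SignType.sign (tri X (Y i) (Y j) (Y k) (κ i j) (κ j k) (κ k i))

theorem sign_mul_pos {a : ℝ} (ha : a ≠ 0) : 0 < (SignType.sign a : ℝ) * a := by
  rcases lt_or_gt_of_ne ha with h | h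
  · rw [sign_neg h]
    simp [h]
  · rw [sign_pos h]
    simp [h]

theorem chiOf_isGCTO {n M : ℕ} (X : ℕ → ℝ) (hX : StrictMono X) (Y : Fin n → ℕ → ℝ)
    (κ : Fin n → Fin n → ℕ) (hκ : ∀ i j, κ i j = κ j i)
    (h1 : ∀ i j, i ≠ j → OneZero M (fun k => Y i k - Y j k) (κ i j))
    (h2 : ∀ i j l, i ≠ j → j ≠ l → i ≠ l → κ i j ≠ κ j l) :
    IsGCTO (chiOf X Y κ) := by
  classical
  refine ⟨fun i j k h => if_pos h, fun i => pathTree M X hX (Y i),
    fun i j => (⟨min (κ i j) M, by omega⟩ : Fin (M + 1)), ?_, ?_, ?_⟩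
  · intro i j hij
    have h3 := h1 i j hij
    have h4 : min (κ i j) M = κ i j := min_eq_left h3.1
    have h5 : min (κ j i) M = κ i j := by rw [hκ j i]; exact h4
    have h6 : Y i (κ i j) = Y j (κ i j) := sub_eq_zero.1 h3.2.1
    refine ⟨?_, ?_⟩
    · show (X (min (κ i j) M), Y i (min (κ i j) M)) = (X (min (κ j i) M), Y j (min (κ j i) M))
      rw [h4, h5, h6]
    · have h7 := inter_eq M X hX (Y i) (Y j) (κ i j) h3
      rw [h7]
      show _ = {(X (min (κ i j) M), Y i (min (κ i j) M))}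
      rw [h4]
  · intro i j k hij hjk hik
    rw [inter_eq M X hX (Y i) (Y j) (κ i j) (h1 i j hij)]
    refine Set.eq_empty_of_forall_notMem ?_
    rintro x ⟨rfl, hx⟩
    have h3 := h1 i j hij
    have h6 : Y i (κ i j) = Y j (κ i j) := sub_eq_zero.1 h3.2.1
    have h4 : (X (κ i j), Y i (κ i j)) ∈
        (pathTree M X hX (Y j)).carrier ∩ (pathTree M X hX (Y k)).carrier :=
      ⟨h6 ▸ vertex_mem _ _ _ _ _ h3.1, hx⟩
    rw [inter_eq M X hX (Y j) (Y k) (κ j k) (h1 j k hjk)] at h4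
    have h5 := (Prod.ext_iff.1 h4).1
    exact h2 i j k hij hjk hik (hX.injective h5)
  · intro i j k hij hjk hik P Q R _ _ _
    rw [path_area, path_area, path_area]
    have e1 : ∀ a b : Fin n, a ≠ b → min (κ a b) M = κ a b := fun a b hab =>
      min_eq_left (h1 a b hab).1
    simp only [e1 i j hij, e1 i k hik, e1 j i hij.symm, e1 j k hjk, e1 k i hik.symm,
      e1 k j hjk.symm]
    rw [hκ i k, hκ j i, hκ k j]
    have e2 : tri X (Y i) (Y j) (Y k) (κ i j) (κ j k) (κ k i) ≠ 0 := by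
      refine tri_ne hX (h1 i j hij) (h1 j k hjk) (h1 k i hik.symm) (h2 i j k hij hjk hik)
        (h2 j k i hjk hik.symm hij.symm) ?_
      rw [hκ i j, hκ k i]
      exact h2 j i k hij.symm hik hjk
    have e3 : chiOf X Y κ i j k = SignType.sign (tri X (Y i) (Y j) (Y k) (κ i j) (κ j k) (κ k i)) := by
      unfold chiOf
      rw [if_neg]
      push Not
      exact ⟨hij, hjk, hik⟩
    rw [e3]
    exact sign_mul_pos e2

end Pool.Agent.H54.GC
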