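import Pool.Agent.H54.GC.Defs
import Pool.Agent.H54.CT.Warren

/-!
# Upper bound for the number of orientations of plane trees

`pot`: a potential for antisymmetric weights on a tree; `upper`: `g(n) ≤ 2 (n^3 + 3)^(n^2)`.
-/

set_option autoImplicit false

namespace Pool.Agent.H54.GC

open MvPolynomial

theorem cross_antisymm (p q : ℝ × ℝ) : cross p q = -cross q p := by
  unfold cross
  ring

/-- If `φ` is a potential then the sum over a walk is the difference of the potentials. -/
theorem area_eq (T : PlaneTree) (φ : Fin T.m → ℝ)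
    (hφ : ∀ a b, T.G.Adj a b → φ b - φ a = cross (T.pos a) (T.pos b)) {u v : Fin T.m}
    (w : T.G.Walk u v) : T.area w = φ v - φ u := by
  unfold PlaneTree.area
  induction w with
  | nil => simp
  | @cons a b c h p ih =>
    rw [SimpleGraph.Walk.darts_cons, List.map_cons, List.sum_cons, ih, ← hφ a b h]
    ring

theorem area_concat (T : PlaneTree) {u v w : Fin T.m} (p : T.G.Walk u v) (h : T.G.Adj v w) :
    T.area (p.concat h) = T.area p + cross (T.pos v) (T.pos w) := by
  unfold PlaneTree.area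
  rw [SimpleGraph.Walk.darts_concat, List.concat_eq_append, List.map_append, List.sum_append]
  simp

/-- Every tree has a potential. -/
theorem exists_pot (T : PlaneTree) :
    ∃ φ : Fin T.m → ℝ, ∀ a b, T.G.Adj a b → φ b - φ a = cross (T.pos a) (T.pos b) := by
  classical
  obtain ⟨r⟩ := T.isTree.1.nonempty
  have hp : ∀ v, ∃ p : T.G.Walk r v, p.IsPath := fun v => (T.isTree.existsUnique_path r v).exists
  choose p hp using hp
  refine ⟨fun v => T.area (p v), fun a b hab => ?_⟩
  have hac := T.isTree.2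
  by_cases h : a ∈ (p b).support
  · have h1 := hac.path_concat (hp a) (hp b) hab h
    show T.area (p b) - T.area (p a) = _
    rw [h1, area_concat]
    ring
  · have h2 : b ∈ (p a).support :=
      hac.mem_support_of_ne_mem_support_of_adj_of_isPath (hp a) (hp b) hab h
    have h1 := hac.path_concat (hp b) (hp a) hab.symm h2
    show T.area (p b) - T.area (p a) = _
    rw [h1, area_concat, cross_antisymm (T.pos a)]
    ring

/-- distinct triples -/
abbrev Tri (n : ℕ) : Type :=
  {t : Fin n × Fin n × Fin n // t.1 ≠ t.2.1 ∧ t.2.1 ≠ t.2.2 ∧ t.1 ≠ t.2.2}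

theorem card_tri (n : ℕ) : Fintype.card (Tri n) ≤ n ^ 3 := by
  refine (Fintype.card_subtype_le _).trans ?_
  simp only [Fintype.card_prod, Fintype.card_fin]
  exact le_of_eq (by ring)

/-- the linear form of a triple -/
noncomputable def form {n : ℕ} (t : Tri n) : MvPolynomial (Fin n × Fin n) ℝ :=
  X (t.1.1, t.1.2.1) + X (t.1.2.1, t.1.2.2) + X (t.1.2.2, t.1.1)

theorem form_deg {n : ℕ} (t : Tri n) : (form t).totalDegree ≤ 1 := by
  unfold form
  refine (totalDegree_add _ _).trans (max_le ((totalDegree_add _ _).trans (max_le ?_ ?_)) ?_) <;>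
    exact le_of_eq (totalDegree_X _)

theorem exists_vec {n : ℕ} (χ : Fin n → Fin n → Fin n → SignType) (hχ : IsGCTO χ) :
    ∃ x : Fin n × Fin n → ℝ, ∀ t : Tri n,
      0 < (χ t.1.1 t.1.2.1 t.1.2.2 : ℝ) * eval x (form t) := by
  obtain ⟨_, T, v, h1, _, h3⟩ := hχ
  have hpot := fun i => exists_pot (T i)
  choose φ hφ using hpot
  refine ⟨fun p => φ p.1 (v p.1 p.2) - φ p.2 (v p.2 p.1), ?_⟩
  rintro ⟨⟨i, j, k⟩, hij, hjk, hik⟩
  simp only at hij hjk hik ⊢
  obtain ⟨P, hP⟩ := ((T i).isTree.existsUnique_path (v i k) (v i j)).exists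
  obtain ⟨Q, hQ⟩ := ((T j).isTree.existsUnique_path (v j i) (v j k)).exists
  obtain ⟨R, hR⟩ := ((T k).isTree.existsUnique_path (v k j) (v k i)).exists
  have h4 := h3 i j k hij hjk hik P Q R hP hQ hR
  rw [area_eq _ _ (hφ i), area_eq _ _ (hφ j), area_eq _ _ (hφ k)] at h4
  have h5 : eval (fun p : Fin n × Fin n => φ p.1 (v p.1 p.2) - φ p.2 (v p.2 p.1))
      (form (⟨(i, j, k), hij, hjk, hik⟩ : Tri n)) =
      φ i (v i j) - φ i (v i k) + (φ j (v j k) - φ j (v j i)) + (φ k (v k i) - φ k (v k j)) := by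
    simp only [form, map_add, eval_X]
    ring
  rw [h5]
  exact h4

/-- the sign pattern of an orientation -/
noncomputable def pat {n : ℕ} (χ : Fin n → Fin n → Fin n → SignType) (t : Tri n) : Bool :=
  decide (χ t.1.1 t.1.2.1 t.1.2.2 = 1)

theorem sign_ne {s : SignType} {a : ℝ} (h : 0 < (s : ℝ) * a) : s = 1 ∨ s = -1 := by
  rcases s with _ | _ | _
  · exfalso
    have : ((SignType.zero : SignType) : ℝ) = 0 := rfl
    rw [this, zero_mul] at h
    exact lt_irrefl _ h
  · right; rfl
  · left; rfl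

theorem pat_inj {n : ℕ} (χ ψ : Fin n → Fin n → Fin n → SignType) (hχ : IsGCTO χ) (hψ : IsGCTO ψ)
    (h : pat χ = pat ψ) : χ = ψ := by
  obtain ⟨x, hx⟩ := exists_vec χ hχ
  obtain ⟨y, hy⟩ := exists_vec ψ hψ
  funext i j k
  by_cases hd : i = j ∨ j = k ∨ i = k
  · rw [hχ.1 i j k hd, hψ.1 i j k hd]
  · push Not at hd
    have h1 := congrFun h ⟨(i, j, k), hd⟩
    have h2 := sign_ne (hx ⟨(i, j, k), hd⟩)
    have h3 := sign_ne (hy ⟨(i, j, k), hd⟩)
    simp only [pat] at h1 h2 h3
    rcases h2 with h2 | h2 <;> rcases h3 with h3 | h3 <;> rw [h2, h3] at h1 ⊢ <;>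
      simp_all

/-- `g(n) ≤ 2 (n^3 + 3)^(n^2)` -/
theorem upper (n : ℕ) : gcto n ≤ 2 * (n ^ 3 + 3) ^ n ^ 2 := by
  classical
  unfold gcto
  have : Fintype {χ : Fin n → Fin n → Fin n → SignType // IsGCTO χ} := Fintype.ofFinite _
  rw [Nat.card_eq_fintype_card, ← Finset.card_univ]
  have hinj : Set.InjOn (fun χ : {χ : Fin n → Fin n → Fin n → SignType // IsGCTO χ} => pat χ.1)
      (Finset.univ : Finset {χ : Fin n → Fin n → Fin n → SignType // IsGCTO χ}) := by
    intro χ _ ψ _ h
    exact Subtype.ext (pat_inj χ.1 ψ.1 χ.2 ψ.2 h)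
  rw [← Finset.card_image_of_injOn hinj]
  refine (CT.warren form 1 form_deg _ ?_).trans ?_
  · intro τ hτ
    obtain ⟨χ, _, rfl⟩ := Finset.mem_image.1 hτ
    obtain ⟨x, hx⟩ := exists_vec χ.1 χ.2
    refine ⟨x, fun t => ?_⟩
    have h1 := hx t
    rcases sign_ne h1 with h2 | h2
    · have h3 : pat χ.1 t = true := by simp [pat, h2]
      rw [if_pos h3]
      rw [h2] at h1
      simpa using h1
    · have h3 : ¬ pat χ.1 t = true := by simp [pat, h2]
      rw [if_neg h3]
      rw [h2] at h1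
      have h4 : (((-1 : SignType)) : ℝ) = -1 := rfl
      rw [h4] at h1
      linarith
  · have h1 : Fintype.card (Fin n × Fin n) = n ^ 2 := by
      simp [Fintype.card_prod, sq]
    rw [h1, one_mul]
    gcongr
    exact card_tri n

end Pool.Agent.H54.GC
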